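import Mathlib
import Pool.Agent.Helper199.RepDim

/-!
# Irreducible representations over a linear character of a normal subgroup, and their zeros
-/

set_option autoImplicit false
open CategoryTheory
open scoped commutatorElement

namespace Pool.Agent.Helper721_Z
open Pool.Agent.Helper199.RepDim

variable {G : Type} [Group G]

/-- `l` restricts to a linear character of `W` which is trivial on `N`. -/
structure IsLin (W N : Subgroup G) (l : G → ℂ) : Prop where
  mul : ∀ u ∈ W, ∀ v ∈ W, l (u * v) = l u * l v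
  one : ∀ n ∈ N, l n = 1

/-- All elements of `x W` are conjugate to `x` modulo `N`. -/
def Good (N W : Subgroup G) (x : G) : Prop := ∀ w ∈ W, ∃ y : G, (y * x * y⁻¹)⁻¹ * (x * w) ∈ N

namespace IsLin
variable {W N : Subgroup G} {l : G → ℂ}

theorem one' (h : IsLin W N l) : l 1 = 1 := h.one 1 N.one_mem

theorem mul_inv (h : IsLin W N l) {u : G} (hu : u ∈ W) : l u * l u⁻¹ = 1 := by
  rw [← h.mul u hu u⁻¹ (W.inv_mem hu), mul_inv_cancel, h.one']

theorem ne_zero (h : IsLin W N l) {u : G} (hu : u ∈ W) : l u ≠ 0 := by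
  intro h0
  have := h.mul_inv hu
  rw [h0, zero_mul] at this
  exact zero_ne_one this

theorem inv (h : IsLin W N l) {u : G} (hu : u ∈ W) : l u⁻¹ = (l u)⁻¹ := by
  have h1 := h.mul_inv hu
  field_simp [h.ne_zero hu]
  rw [mul_comm]; exact h1

end IsLin

/-- a sum of a nontrivial multiplicative function over a finite subgroup is zero -/
theorem sum_mult_zero [Finite G] (W : Subgroup G) (f : G → ℂ)
    (hf : ∀ u ∈ W, ∀ v ∈ W, f (u * v) = f u * f v) (hne : ∃ w ∈ W, f w ≠ 1) [Fintype W] :
    ∑ w : W, f w = 0 := by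
  obtain ⟨w0, hw0, h0⟩ := hne
  have h1 : ∑ w : W, f w = f w0 * ∑ w : W, f w := by
    rw [Finset.mul_sum, ← Equiv.sum_comp (Equiv.mulLeft (⟨w0, hw0⟩ : W))]
    apply Finset.sum_congr rfl
    intro w _
    exact hf w0 hw0 w w.2
  have h2 : (f w0 - 1) * ∑ w : W, f w = 0 := by linear_combination -h1
  rcases mul_eq_zero.1 h2 with h | h
  · exact absurd (by linear_combination h) h0
  · exact h

/-- the space of functions induced from `l` -/
def indSp (W : Subgroup G) (l : G → ℂ) : Submodule ℂ (G → ℂ) where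
  carrier := {φ | ∀ w ∈ W, ∀ g, φ (w * g) = l w * φ g}
  add_mem' := by
    intro a b ha hb w hw g
    simp only [Pi.add_apply]
    rw [ha w hw g, hb w hw g]; ring
  zero_mem' := by
    intro w _ g
    simp
  smul_mem' := by
    intro c a ha w hw g
    simp only [Pi.smul_apply, smul_eq_mul]
    rw [ha w hw g]; ring

/-- right translation -/
def rtr (x : G) : (G → ℂ) →ₗ[ℂ] (G → ℂ) where
  toFun φ := fun g => φ (g * x)
  map_add' _ _ := rfl
  map_smul' _ _ := rfl

theorem rtr_apply (x : G) (φ : G → ℂ) (g : G) : rtr x φ g = φ (g * x) := rfl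

theorem rtr_mem (W : Subgroup G) (l : G → ℂ) (x : G) {φ : G → ℂ} (h : φ ∈ indSp W l) :
    rtr x φ ∈ indSp W l := by
  intro w hw g
  rw [rtr_apply, rtr_apply, mul_assoc]
  exact h w hw (g * x)

theorem indSp_ne_bot (W N : Subgroup G) (l : G → ℂ) (hl : IsLin W N l) : indSp W l ≠ ⊥ := by
  classical
  intro h
  let φ : G → ℂ := fun g => if g ∈ W then l g else 0
  have h1 : φ ∈ indSp W l := by
    intro w hw g
    change (if w * g ∈ W then l (w * g) else 0) = l w * (if g ∈ W then l g else 0)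
    by_cases hg : g ∈ W
    · rw [if_pos (W.mul_mem hw hg), if_pos hg, hl.mul w hw g hg]
    · rw [if_neg hg, if_neg, mul_zero]
      intro h2
      apply hg
      have := W.mul_mem (W.inv_mem hw) h2
      simpa using this
  rw [h, Submodule.mem_bot] at h1
  have h2 := congrFun h1 1
  change (if (1 : G) ∈ W then l 1 else 0) = 0 at h2
  rw [if_pos W.one_mem, hl.one'] at h2
  exact one_ne_zero h2

/-- There is a simple subrepresentation of the induced representation. -/
theorem exists_sub [Finite G] (W N : Subgroup G) (l : G → ℂ) (hl : IsLin W N l) :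
    ∃ V : FDRep ℂ G, Simple V ∧ ∃ j : V →ₗ[ℂ] (G → ℂ), Function.Injective j ∧
      (∀ v, j v ∈ indSp W l) ∧ ∀ x v, j (V.ρ x v) = rtr x (j v) := by
  classical
  have := Fintype.ofFinite G
  let P : Submodule ℂ (G → ℂ) → Prop := fun X => X ≤ indSp W l ∧ X ≠ ⊥ ∧
    ∀ x, ∀ φ ∈ X, rtr x φ ∈ X
  have hP : P (indSp W l) := ⟨le_refl _, indSp_ne_bot W N l hl, fun x φ h => rtr_mem W l x h⟩
  obtain ⟨X, hX, hmin⟩ := WellFounded.has_min (α := Submodule ℂ (G → ℂ))
    (r := (· < ·)) wellFounded_lt {X | P X} ⟨_, hP⟩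
  obtain ⟨hX1, hX2, hX3⟩ := hX
  let ρ : Representation ℂ G X :=
    { toFun := fun x => (rtr x).restrict (hX3 x)
      map_one' := by
        apply LinearMap.ext; intro φ
        apply Subtype.ext; funext g
        change (φ : G → ℂ) (g * 1) = (φ : G → ℂ) g
        rw [mul_one]
      map_mul' := fun x y => by
        apply LinearMap.ext; intro φ
        apply Subtype.ext; funext g
        change (φ : G → ℂ) (g * (x * y)) = (φ : G → ℂ) (g * x * y)
        rw [mul_assoc] }
  have hnt : Nontrivial X := Submodule.nontrivial_iff_ne_bot.2 hX2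
  have hs : Simple (FDRep.of ρ) := by
    apply simple_of_irred
    intro Y hY
    by_cases hY0 : Y = ⊥
    · left; exact hY0
    right
    have hZ : P (Y.map X.subtype) := by
      refine ⟨?_, ?_, ?_⟩
      · intro φ hφ
        obtain ⟨ψ, _, rfl⟩ := hφ
        exact hX1 ψ.2
      · intro h
        apply hY0
        rw [Submodule.eq_bot_iff]
        intro y hy
        have h1 : X.subtype y ∈ Y.map X.subtype := Submodule.mem_map_of_mem hy
        rw [h, Submodule.mem_bot] at h1
        exact Subtype.ext h1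
      · rintro x _ ⟨ψ, hψ, rfl⟩
        exact ⟨ρ x ψ, hY x ψ hψ, rfl⟩
    have hle : Y.map X.subtype ≤ X := by
      rintro _ ⟨ψ, _, rfl⟩
      exact ψ.2
    have heq : Y.map X.subtype = X := by
      by_contra hne
      exact hmin _ hZ (lt_of_le_of_ne hle hne)
    rw [Submodule.eq_top_iff']
    intro ψ
    have h1 : (ψ : G → ℂ) ∈ Y.map X.subtype := by rw [heq]; exact ψ.2
    obtain ⟨y, hy, hy'⟩ := h1
    have : y = ψ := Subtype.ext hy'
    rwa [← this]
  exact ⟨FDRep.of ρ, hs, X.subtype, X.injective_subtype, fun v => hX1 v.2, fun x v => rfl⟩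

/-- The main existence theorem of this file. -/
theorem exists_rep [Finite G] (N W : Subgroup G) (hW : W.Normal) (l : G → ℂ)
    (hN : N.Normal) (hNW : N ≤ W) (hl : IsLin W N l) (hne : ∃ w ∈ W, l w ≠ 1) :
    ∃ V : FDRep ℂ G, Simple V ∧ (∀ n ∈ N, V.ρ n = 1) ∧
      (∀ x, (∀ g, ∃ w ∈ W, l ⁅g * x * g⁻¹, w⁆ ≠ 1) → V.character x = 0) ∧
      (∀ x, Good N W x → V.character x = 0) ∧
      ((∀ g, ∀ w ∈ W, l (g * w * g⁻¹) = l w) →
        ∀ x y, ⁅x, y⁆ ∈ W → l ⁅x, y⁆ ≠ 1 → V.character x = 0) := by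
  classical
  have := Fintype.ofFinite G
  obtain ⟨V, hV, j, hj, hjE, hjρ⟩ := exists_sub W N l hl
  -- action of `W`
  have hact : ∀ u ∈ W, ∀ v : V, ∀ g, j (V.ρ u v) g = l (g * u * g⁻¹) * j v g := by
    intro u hu v g
    rw [hjρ, rtr_apply]
    have h1 : g * u = (g * u * g⁻¹) * g := by group
    have h2 := hjE v _ (hW.conj_mem u hu g) g
    rwa [← h1] at h2
  have hNtriv : ∀ n ∈ N, V.ρ n = 1 := by
    intro n hn
    apply LinearMap.ext
    intro v
    apply hj
    funext g
    rw [hact n (hNW hn) v g, hl.one _ (hN.conj_mem n hn g), one_mul]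
    rfl
  -- the averaging principle
  have hav : ∀ (x : G) (ι : Type) [Fintype ι] [Nonempty ι] (y u : ι → G), (∀ i, u i ∈ W) →
      (∀ i, (x * u i)⁻¹ * (y i * x * (y i)⁻¹) ∈ N) → (∀ g, ∑ i, l (g * u i * g⁻¹) = 0) →
      V.character x = 0 := by
    intro x ι _ _ y u hu hyu hsum
    have h0 : ∑ i, V.ρ (u i) = 0 := by
      apply LinearMap.ext
      intro v
      apply hj
      funext g
      rw [LinearMap.sum_apply, map_sum, Finset.sum_apply]
      rw [Finset.sum_congr rfl (fun i _ => hact (u i) (hu i) v g), ← Finset.sum_mul, hsum g]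
      simp
    have h1 : ∀ i, V.character x = LinearMap.trace ℂ V (V.ρ x * V.ρ (u i)) := by
      intro i
      have h2 : V.character x = V.character (y i * x * (y i)⁻¹) := (V.char_conj x (y i)).symm
      rw [h2]
      have h3 : y i * x * (y i)⁻¹ = (x * u i) * ((x * u i)⁻¹ * (y i * x * (y i)⁻¹)) := by group
      rw [h3]
      change LinearMap.trace ℂ V (V.ρ _) = _
      rw [map_mul, hNtriv _ (hyu i), mul_one, map_mul]
    have h4 : (Fintype.card ι : ℂ) * V.character x = 0 := by
      have h5 : ∑ _i : ι, V.character x = (Fintype.card ι : ℂ) * V.character x := by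
        rw [Finset.sum_const, Finset.card_univ, nsmul_eq_mul]
      rw [← h5, Finset.sum_congr rfl (fun i _ => h1 i), ← map_sum, ← Finset.mul_sum, h0, mul_zero,
        map_zero]
    rcases mul_eq_zero.1 h4 with h | h
    · exact absurd (by exact_mod_cast h) (Fintype.card_ne_zero (α := ι))
    · exact h
  refine ⟨V, hV, hNtriv, ?_, ?_, ?_⟩
  · intro x hx
    apply hav x W (fun w => w) (fun w => ⁅x⁻¹, (w : G)⁆)
    · intro w
      rw [commutatorElement_def, inv_inv]
      have : x⁻¹ * (w : G) * x * (w : G)⁻¹ = (x⁻¹ * w * x⁻¹⁻¹) * (w : G)⁻¹ := by rw [inv_inv]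
      rw [this]
      exact W.mul_mem (hW.conj_mem _ w.2 _) (W.inv_mem w.2)
    · intro w
      rw [commutatorElement_def, inv_inv]
      have : (x * (x⁻¹ * (w : G) * x * (w : G)⁻¹))⁻¹ * (w * x * (w : G)⁻¹) = 1 := by group
      rw [this]; exact N.one_mem
    · intro g
      -- reindex
      let f : G → ℂ := fun w => l ⁅(g * x * g⁻¹)⁻¹, w⁆
      have hf1 : ∀ w ∈ W, f w = l ((g * x * g⁻¹)⁻¹ * w * (g * x * g⁻¹)) * (l w)⁻¹ := by
        intro w hw
        change l ⁅(g * x * g⁻¹)⁻¹, w⁆ = _
        rw [commutatorElement_def, inv_inv]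
        have hw1 : (g * x * g⁻¹)⁻¹ * w * (g * x * g⁻¹) ∈ W := by
          have := hW.conj_mem w hw (g * x * g⁻¹)⁻¹
          rwa [inv_inv] at this
        rw [hl.mul _ hw1 _ (W.inv_mem hw), hl.inv hw]
      have hf : ∀ u ∈ W, ∀ v ∈ W, f (u * v) = f u * f v := by
        intro u hu v hv
        rw [hf1 _ (W.mul_mem hu hv), hf1 u hu, hf1 v hv, hl.mul u hu v hv]
        have e1 : (g * x * g⁻¹)⁻¹ * (u * v) * (g * x * g⁻¹) =
            ((g * x * g⁻¹)⁻¹ * u * (g * x * g⁻¹)) * ((g * x * g⁻¹)⁻¹ * v * (g * x * g⁻¹)) := by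
          group
        have hu1 : (g * x * g⁻¹)⁻¹ * u * (g * x * g⁻¹) ∈ W := by
          have := hW.conj_mem u hu (g * x * g⁻¹)⁻¹
          rwa [inv_inv] at this
        have hv1 : (g * x * g⁻¹)⁻¹ * v * (g * x * g⁻¹) ∈ W := by
          have := hW.conj_mem v hv (g * x * g⁻¹)⁻¹
          rwa [inv_inv] at this
        rw [e1, hl.mul _ hu1 _ hv1, mul_inv]
        ring
      have hne' : ∃ w ∈ W, f w ≠ 1 := by
        obtain ⟨w, hw, hw1⟩ := hx g
        refine ⟨(g * x * g⁻¹) * w * (g * x * g⁻¹)⁻¹, hW.conj_mem w hw _, ?_⟩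
        intro h2
        rw [hf1 _ (hW.conj_mem w hw _)] at h2
        apply hw1
        rw [commutatorElement_def, hl.mul _ (hW.conj_mem w hw _) _ (W.inv_mem hw), hl.inv hw]
        have e1 : (g * x * g⁻¹)⁻¹ * (g * x * g⁻¹ * w * (g * x * g⁻¹)⁻¹) * (g * x * g⁻¹) = w := by
          group
        rw [e1] at h2
        have h3 := hl.ne_zero hw
        have h4 := hl.ne_zero (hW.conj_mem w hw (g * x * g⁻¹))
        field_simp at h2 ⊢
        exact h2.symm
      have hs := sum_mult_zero W f hf hne'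
      rw [← hs]
      have hbij : ∀ w : W, g * (w : G) * g⁻¹ ∈ W := fun w => hW.conj_mem _ w.2 g
      let e : W ≃ W :=
        { toFun := fun w => ⟨g * (w : G) * g⁻¹, hbij w⟩
          invFun := fun w => ⟨g⁻¹ * (w : G) * g, by
            have := hW.conj_mem _ w.2 g⁻¹
            rwa [inv_inv] at this⟩
          left_inv := fun w => by apply Subtype.ext; change g⁻¹ * (g * (w : G) * g⁻¹) * g = w; group
          right_inv := fun w => by
            apply Subtype.ext; change g * (g⁻¹ * (w : G) * g) * g⁻¹ = w; group }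
      rw [← Equiv.sum_comp e (fun w : W => f w)]
      apply Finset.sum_congr rfl
      intro w _
      change l (g * ⁅x⁻¹, (w : G)⁆ * g⁻¹) = l ⁅(g * x * g⁻¹)⁻¹, g * (w : G) * g⁻¹⁆
      congr 1
      simp only [commutatorElement_def]
      group
  · intro x hx
    choose y hy using hx
    apply hav x W (fun w => y w w.2) (fun w => (w : G)) (fun w => w.2)
    · intro w
      have h1 := N.inv_mem (hy w w.2)
      have h2 : ((y w w.2 * x * (y w w.2)⁻¹)⁻¹ * (x * (w : G)))⁻¹ =
        (x * (w : G))⁻¹ * (y w w.2 * x * (y w w.2)⁻¹) := by group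
      rwa [h2] at h1
    · intro g
      apply sum_mult_zero W (fun w => l (g * w * g⁻¹))
      · intro u hu v hv
        change l (g * (u * v) * g⁻¹) = l (g * u * g⁻¹) * l (g * v * g⁻¹)
        rw [← hl.mul _ (hW.conj_mem u hu g) _ (hW.conj_mem v hv g)]
        congr 1; group
      · obtain ⟨w, hw, h1⟩ := hne
        refine ⟨g⁻¹ * w * g, ?_, ?_⟩
        · have := hW.conj_mem w hw g⁻¹
          rwa [inv_inv] at this
        · change l (g * (g⁻¹ * w * g) * g⁻¹) ≠ 1
          have : g * (g⁻¹ * w * g) * g⁻¹ = w := by group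
          rwa [this]
  · intro hinv x y hxy hne1
    have hsc : ∀ u ∈ W, V.ρ u = (l u) • 1 := by
      intro u hu
      apply LinearMap.ext
      intro v
      apply hj
      funext g
      rw [hact u hu v g, hinv g u hu]
      simp
    have h1 : V.character x = V.character (y * x * y⁻¹) := (V.char_conj x y).symm
    have h2 : y * x * y⁻¹ = ⁅x, y⁆⁻¹ * x := by rw [commutatorElement_def]; group
    have h3 : V.character (y * x * y⁻¹) = (l ⁅x, y⁆)⁻¹ * V.character x := by
      rw [h2]
      change LinearMap.trace ℂ V (V.ρ _) = _ * LinearMap.trace ℂ V (V.ρ x)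
      rw [map_mul, hsc _ (W.inv_mem hxy), hl.inv hxy, smul_mul_assoc, one_mul, map_smul, smul_eq_mul]
    rw [h3] at h1
    have h4 := hl.ne_zero hxy
    have h5 : (l ⁅x, y⁆ - 1) * V.character x = 0 := by
      have : l ⁅x, y⁆ * V.character x = l ⁅x, y⁆ * ((l ⁅x, y⁆)⁻¹ * V.character x) := by rw [← h1]
      rw [← mul_assoc, mul_inv_cancel₀ h4, one_mul] at this
      linear_combination this
    rcases mul_eq_zero.1 h5 with h | h
    · exact absurd (by linear_combination h) hne1
    · exact h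

end Pool.Agent.Helper721_Z
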