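import Mathlib
import Pool.Agent.Helper721_Z.Rep

/-!
# The layer lemma: zeros of characters of quotients
-/

set_option autoImplicit false
open CategoryTheory
open scoped commutatorElement

namespace Pool.Agent.Helper721_Z
open Pool.Agent.Helper199.RepDim

/-- every irreducible character of `G` vanishes on at most `m` conjugacy classes -/
def ZB (m : ℕ) (G : Type) [Group G] : Prop :=
  ∀ V : FDRep ℂ G, Simple V →
    Nat.card {c : ConjClasses G // ∃ g : G, ConjClasses.mk g = c ∧ V.character g = 0} ≤ m

/-- A chain of equivalence relations strictly increases at most as often as classes get lost. -/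
theorem setoid_chain {X : Type} [Finite X] (s : ℕ → Setoid X) (i : ℕ)
    (hs : ∀ j < i, s j ≤ s (j + 1)) [DecidablePred fun j => s j ≠ s (j + 1)] :
    Nat.card (Quotient (s i)) + ((Finset.range i).filter (fun j => s j ≠ s (j + 1))).card ≤
      Nat.card (Quotient (s 0)) := by
  induction i with
  | zero => simp
  | succ i ih =>
    have h1 := ih (fun j hj => hs j (by omega))
    rw [Finset.range_add_one, Finset.filter_insert]
    by_cases he : s i = s (i + 1)
    · rw [if_neg (by simpa using he)]
      rw [← he]
      exact h1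
    · rw [if_pos he, Finset.card_insert_of_notMem (by simp)]
      have hle := hs i (by omega)
      have h2 : Nat.card (Quotient (s (i + 1))) < Nat.card (Quotient (s i)) := by
        let φ : Quotient (s i) → Quotient (s (i + 1)) := Quotient.map' id (fun a b h => hle h)
        have hφ : Function.Surjective φ := by
          intro q
          obtain ⟨x, rfl⟩ := Quotient.exists_rep q
          exact ⟨Quotient.mk _ x, rfl⟩
        have h3 : ¬ Function.Injective φ := by
          intro hinj
          apply he
          apply le_antisymm hle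
          intro a b hab
          have h4 : φ (Quotient.mk _ a) = φ (Quotient.mk _ b) := Quotient.sound hab
          exact Quotient.exact (hinj h4)
        have h5 : Nat.card (Quotient (s (i + 1))) ≤ Nat.card (Quotient (s i)) :=
          Nat.card_le_card_of_surjective φ hφ
        rcases lt_or_eq_of_le h5 with h | h
        · exact h
        · exfalso
          apply h3
          exact ((Nat.bijective_iff_surjective_and_card φ).2 ⟨hφ, h.symm⟩).1
      omega

variable {G : Type} [Group G]

theorem Good.mono {N W W' : Subgroup G} {x : G} (h : Good N W x) (hW : W' ≤ W) : Good N W' x :=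
  fun w hw => h w (hW hw)

/-- the relation `v` is conjugate to an element of `u K`, on a coset of `N` -/
def relS (K N : Subgroup G) (hK : K.Normal) (x : G) : Setoid {u : G // x⁻¹ * u ∈ N} where
  r := fun u v => ∃ y : G, (y * (u : G) * y⁻¹)⁻¹ * (v : G) ∈ K
  iseqv :=
    { refl := fun u => ⟨1, by
        have : ((1 : G) * (u : G) * 1⁻¹)⁻¹ * (u : G) = 1 := by group
        rw [this]; exact K.one_mem⟩
      symm := by
        rintro u v ⟨y, hy⟩
        refine ⟨y⁻¹, ?_⟩
        have h1 := hK.conj_mem _ (K.inv_mem hy) y⁻¹
        convert h1 using 1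
        group
      trans := by
        rintro u v w ⟨y, hy⟩ ⟨z, hz⟩
        refine ⟨z * y, ?_⟩
        have h1 := hK.conj_mem _ hy z
        have h2 := K.mul_mem h1 hz
        convert h2 using 1
        group }

/-- Lemma 2 -/
theorem few_bad [Finite G] {m : ℕ} (hm : ZB m G) (N : ℕ → Subgroup G) (hN : ∀ i, (N i).Normal)
    (i : ℕ) (hmono : ∀ j < i, N j ≤ N (j + 1)) (V : FDRep ℂ G) (hV : Simple V)
    (hVN : ∀ n ∈ N i, V.ρ n = 1) (x : G) (hx : V.character x = 0)
    [DecidablePred fun j => ¬ Good (N j) (N (j + 1)) x] :
    ((Finset.range i).filter (fun j => ¬ Good (N j) (N (j + 1)) x)).card < m := by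
  classical
  have hmono' : ∀ j ≤ i, N j ≤ N i := by
    intro j hj
    induction i, hj using Nat.le_induction with
    | base => exact le_refl _
    | succ n hn ih =>
      clear hVN
      have h1 : N j ≤ N n := by
        have : ∀ k, j ≤ k → k ≤ n → N j ≤ N k := by
          intro k hk
          induction k, hk using Nat.le_induction with
          | base => intro _; exact le_refl _
          | succ k hk ih2 =>
            intro hk2
            exact le_trans (ih2 (by omega)) (hmono k (by omega))
        exact this n hn le_rfl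
      exact le_trans h1 (hmono n (by omega))
  let s : ℕ → Setoid {u : G // x⁻¹ * u ∈ N i} := fun j => relS (N j) (N i) (hN j) x
  have hs : ∀ j < i, s j ≤ s (j + 1) := by
    intro j hj u v
    rintro ⟨y, hy⟩
    exact ⟨y, hmono j hj hy⟩
  have h1 := setoid_chain s i hs
  have hsub : ((Finset.range i).filter (fun j => ¬ Good (N j) (N (j + 1)) x)) ⊆
      ((Finset.range i).filter (fun j => s j ≠ s (j + 1))) := by
    intro j hj
    rw [Finset.mem_filter] at hj ⊢
    refine ⟨hj.1, ?_⟩
    intro heq
    apply hj.2
    intro w hw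
    have hji := Finset.mem_range.1 hj.1
    have hw' : w ∈ N i := hmono' (j + 1) (by omega) hw
    let u0 : {u : G // x⁻¹ * u ∈ N i} := ⟨x, by rw [inv_mul_cancel]; exact (N i).one_mem⟩
    let u1 : {u : G // x⁻¹ * u ∈ N i} := ⟨x * w, by
      rw [inv_mul_cancel_left]; exact hw'⟩
    have h2 : (s (j + 1)) u0 u1 := ⟨1, by
      have : ((1 : G) * x * 1⁻¹)⁻¹ * (x * w) = w := by group
      change ((1 : G) * x * 1⁻¹)⁻¹ * (x * w) ∈ N (j + 1)
      rw [this]; exact hw⟩
    rw [← heq] at h2
    exact h2
  have hcard0 : Nat.card (Quotient (s 0)) ≤ m := by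
    refine le_trans ?_ (hm V hV)
    let φ : Quotient (s 0) → {c : ConjClasses G // ∃ g : G, ConjClasses.mk g = c ∧
        V.character g = 0} := fun q => ⟨ConjClasses.mk (q.out : G), (q.out : G), rfl, by
      have h2 : (q.out : G) = x * (x⁻¹ * (q.out : G)) := by group
      rw [h2]
      change LinearMap.trace ℂ V (V.ρ _) = 0
      rw [map_mul, hVN _ q.out.2, mul_one]
      exact hx⟩
    apply Nat.card_le_card_of_injective φ
    intro q q' hqq
    have h2 : ConjClasses.mk (q.out : G) = ConjClasses.mk (q'.out : G) := congrArg Subtype.val hqq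
    rw [ConjClasses.mk_eq_mk_iff_isConj, isConj_iff] at h2
    obtain ⟨y, hy⟩ := h2
    rw [← Quotient.out_eq q, ← Quotient.out_eq q']
    apply Quotient.sound
    refine ⟨y, ?_⟩
    rw [hy, inv_mul_cancel]
    exact (N 0).one_mem
  have hpos : 0 < Nat.card (Quotient (s i)) := by
    have : Nonempty (Quotient (s i)) := ⟨Quotient.mk _ ⟨x, by
      rw [inv_mul_cancel]; exact (N i).one_mem⟩⟩
    exact Nat.card_pos
  have h3 := Finset.card_le_card hsub
  omega

/-- Lemma 3 -/
theorem chain_bound [Finite G] {m : ℕ} (hm : ZB m G) (k : ℕ) (A A' : ℕ → Subgroup G)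
    (hA : ∀ i, (A i).Normal) (hAA : ∀ i, i + 1 < k → A i ≤ A' i ∧ A' i ≤ A (i + 1))
    (V : ℕ → FDRep ℂ G) (hV : ∀ i < k, Simple (V i)) (hVA : ∀ i < k, ∀ n ∈ A i, (V i).ρ n = 1)
    (hVG : ∀ i < k, ∀ x, Good (A i) (A' i) x → (V i).character x = 0)
    (x : ℕ → G) (hx : ∀ i < k, (V i).character (x i) = 0)
    (hne : ∀ i < k, ∀ j < i, ¬ IsConj (x j) (x i)) : k ≤ (m + 1) ^ 2 := by
  classical
  by_contra hk
  push Not at hk
  set a := k - m - 1 with ha
  have hk1 : m + 1 ≤ k := by nlinarith
  have ha1 : (m + 1) * m < a := by
    have : (m + 1) ^ 2 = (m + 1) * m + (m + 1) := by ring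
    omega
  have key : ∀ j < a, ∃ t < m + 1, (V j).character (x (a + t)) ≠ 0 := by
    intro j hj
    by_contra hcon
    push Not at hcon
    have h1 := hm (V j) (hV j (by omega))
    let φ : Fin (m + 1) → {c : ConjClasses G // ∃ g : G, ConjClasses.mk g = c ∧
        (V j).character g = 0} := fun t => ⟨ConjClasses.mk (x (a + t)), x (a + t), rfl,
      hcon t t.2⟩
    have hφ : Function.Injective φ := by
      intro t t' htt
      have h2 : ConjClasses.mk (x (a + t)) = ConjClasses.mk (x (a + t')) :=
        congrArg Subtype.val htt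
      rw [ConjClasses.mk_eq_mk_iff_isConj] at h2
      by_contra hneq
      have hneq' : (t : ℕ) ≠ t' := fun h => hneq (Fin.ext h)
      have ht := t.2
      have ht' := t'.2
      rcases lt_or_gt_of_ne hneq' with h | h
      · exact hne (a + t') (by omega) (a + t) (by omega) h2
      · exact hne (a + t) (by omega) (a + t') (by omega) h2.symm
    have h3 := Nat.card_le_card_of_injective φ hφ
    rw [Nat.card_eq_fintype_card, Fintype.card_fin] at h3
    omega
  choose! f hf hf' using key
  obtain ⟨t, ht, hcard⟩ := Finset.exists_lt_card_fiber_of_mul_lt_card_of_maps_to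
    (s := Finset.range a) (t := Finset.range (m + 1)) (f := f) (n := m)
    (fun j hj => Finset.mem_range.2 (hf j (Finset.mem_range.1 hj)))
    (by rw [Finset.card_range, Finset.card_range]; exact ha1)
  have ht' := Finset.mem_range.1 ht
  have hlt : a + t < k := by omega
  have h4 := few_bad hm A hA (a + t) (fun j hj => le_trans (hAA j (by omega)).1
    (hAA j (by omega)).2) (V (a + t)) (hV _ hlt) (hVA _ hlt) (x (a + t)) (hx _ hlt)
  have h5 : ((Finset.range a).filter (fun j => f j = t)) ⊆
      ((Finset.range (a + t)).filter (fun j => ¬ Good (A j) (A (j + 1)) (x (a + t)))) := by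
    intro j hj
    rw [Finset.mem_filter, Finset.mem_range] at hj ⊢
    refine ⟨by omega, ?_⟩
    intro hgood
    have h6 := hf' j hj.1
    rw [hj.2] at h6
    apply h6
    apply hVG j (by omega)
    exact hgood.mono (hAA j (by omega)).2
  have h7 := Finset.card_le_card h5
  omega

end Pool.Agent.Helper721_Z
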