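import Mathlib
import Pool.Agent.Helper721_Z.Rep

/-!
# Regular linear characters of a chief factor
-/

set_option autoImplicit false
open scoped commutatorElement

namespace Pool.Agent.Helper721_Z

variable {G : Type} [Group G]

theorem IsLin.comm_mul {W N : Subgroup G} {l : G → ℂ} (hl : IsLin W N l) (hW : W.Normal) (b : G)
    {u v : G} (hu : u ∈ W) (hv : v ∈ W) : l ⁅b, u * v⁆ = l ⁅b, u⁆ * l ⁅b, v⁆ := by
  have h : ∀ w ∈ W, l ⁅b, w⁆ = l (b * w * b⁻¹) * (l w)⁻¹ := by
    intro w hw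
    rw [commutatorElement_def, hl.mul _ (hW.conj_mem w hw b) _ (W.inv_mem hw), hl.inv hw]
  rw [h _ (W.mul_mem hu hv), h u hu, h v hv, hl.mul u hu v hv]
  have e1 : b * (u * v) * b⁻¹ = (b * u * b⁻¹) * (b * v * b⁻¹) := by group
  rw [e1, hl.mul _ (hW.conj_mem u hu b) _ (hW.conj_mem v hv b), _root_.mul_inv]
  ring

theorem comm_mem_of_normal {W : Subgroup G} (hW : W.Normal) (b : G) {w : G} (hw : w ∈ W) :
    ⁅b, w⁆ ∈ W := by
  rw [commutatorElement_def]
  exact W.mul_mem (hW.conj_mem w hw b) (W.inv_mem hw)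

/-- Existence of a nontrivial linear character of `W` trivial on `M`, when `W/M` is abelian and
nontrivial. -/
theorem exists_lin [Finite G] (M W : Subgroup G) (hMW : M ≤ W) (hne : M ≠ W)
    (hab : ∀ u ∈ W, ∀ v ∈ W, ⁅u, v⁆ ∈ M) :
    ∃ l : G → ℂ, IsLin W M l ∧ ∃ w ∈ W, l w ≠ 1 := by
  classical
  let M' : Subgroup W := M.subgroupOf W
  have hM'n : M'.Normal := by
    constructor
    intro n hn g
    rw [Subgroup.mem_subgroupOf] at hn ⊢
    have h1 := hab g g.2 n n.2
    have h2 := M.mul_mem h1 hn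
    convert h2 using 1
    simp only [commutatorElement_def, Subgroup.coe_mul, Subgroup.coe_inv]
    group
  let _ : CommGroup (W ⧸ M') :=
    { (inferInstance : Group (W ⧸ M')) with
      mul_comm := by
        intro a b
        obtain ⟨a, rfl⟩ := QuotientGroup.mk_surjective a
        obtain ⟨b, rfl⟩ := QuotientGroup.mk_surjective b
        rw [← QuotientGroup.mk_mul, ← QuotientGroup.mk_mul, QuotientGroup.eq,
          Subgroup.mem_subgroupOf]
        have h1 := hab (b : G)⁻¹ (W.inv_mem b.2) (a : G)⁻¹ (W.inv_mem a.2)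
        convert h1 using 1
        simp only [commutatorElement_def, Subgroup.coe_mul, Subgroup.coe_inv]
        group }
  obtain ⟨w, hw, hwM⟩ : ∃ w ∈ W, w ∉ M := by
    by_contra h
    push Not at h
    exact hne (le_antisymm hMW h)
  have hw1 : (QuotientGroup.mk (⟨w, hw⟩ : W) : W ⧸ M') ≠ 1 := by
    intro h
    rw [QuotientGroup.eq_one_iff, Subgroup.mem_subgroupOf] at h
    exact hwM h
  obtain ⟨φ, hφ⟩ := CommGroup.exists_apply_ne_one_of_hasEnoughRootsOfUnity (W ⧸ M') ℂ hw1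
  refine ⟨fun g => if h : g ∈ W then (φ (QuotientGroup.mk ⟨g, h⟩) : ℂ) else 1, ⟨?_, ?_⟩, w, hw, ?_⟩
  · intro u hu v hv
    rw [dif_pos (W.mul_mem hu hv), dif_pos hu, dif_pos hv, ← Units.val_mul, ← map_mul,
      ← QuotientGroup.mk_mul]
    rfl
  · intro n hn
    rw [dif_pos (hMW hn)]
    have : (QuotientGroup.mk (⟨n, hMW hn⟩ : W) : W ⧸ M') = 1 := by
      rw [QuotientGroup.eq_one_iff, Subgroup.mem_subgroupOf]
      exact hn
    rw [this, map_one]
    rfl
  · change (if h : w ∈ W then (φ (QuotientGroup.mk ⟨w, h⟩) : ℂ) else 1) ≠ 1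
    rw [dif_pos hw]
    intro h
    apply hφ
    exact Units.ext h

/-- `U` is invariant under conjugation by `B`. -/
def Inv' (B U : Subgroup G) : Prop := ∀ b ∈ B, ∀ u ∈ U, b * u * b⁻¹ ∈ U

/-- Lemma 4. -/
theorem exists_regular [Finite G] (N W B : Subgroup G) (hN : N.Normal) (hW : W.Normal)
    (hB : B.Normal) (hNW : N ≤ W) (hne : N ≠ W) (hab : ∀ u ∈ W, ∀ v ∈ W, ⁅u, v⁆ ∈ N)
    (hchief : ∀ M : Subgroup G, M.Normal → N ≤ M → M ≤ W → M = N ∨ M = W)
    (hBB : ∀ a ∈ B, ∀ b ∈ B, ∀ w ∈ W, ⁅⁅a, b⁆, w⁆ ∈ N) :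
    ∃ l : G → ℂ, IsLin W N l ∧ (∃ w ∈ W, l w ≠ 1) ∧
      ∀ b ∈ B, (∀ w ∈ W, l ⁅b, w⁆ = 1) → ∀ w ∈ W, ⁅b, w⁆ ∈ N := by
  classical
  -- the maximal `B`-invariant subgroups
  let P : Subgroup G → Prop := fun M => N ≤ M ∧ M ≤ W ∧ M ≠ W ∧ Inv' B M
  let Mx : Subgroup G → Prop := fun M => P M ∧ ∀ M', P M' → M ≤ M' → M' = M
  have hPcomap : ∀ M g, P M → P (M.comap (MulAut.conj g).toMonoidHom) := by
    rintro M g ⟨h1, h2, h3, h4⟩
    refine ⟨?_, ?_, ?_, ?_⟩
    · intro x hx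
      exact h1 (hN.conj_mem x hx g)
    · intro x hx
      have h5 : g * x * g⁻¹ ∈ W := h2 hx
      have h6 := hW.conj_mem _ h5 g⁻¹
      have : g⁻¹ * (g * x * g⁻¹) * g⁻¹⁻¹ = x := by group
      rwa [this] at h6
    · intro h5
      apply h3
      apply le_antisymm h2
      intro w hw
      have h6 : g⁻¹ * w * g⁻¹⁻¹ ∈ M.comap (MulAut.conj g).toMonoidHom := by
        rw [h5]; exact hW.conj_mem w hw g⁻¹
      have h7 : g * (g⁻¹ * w * g⁻¹⁻¹) * g⁻¹ ∈ M := h6
      have : g * (g⁻¹ * w * g⁻¹⁻¹) * g⁻¹ = w := by group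
      rwa [this] at h7
    · intro b hb u hu
      have h5 : g * u * g⁻¹ ∈ M := hu
      have h6 := h4 _ (hB.conj_mem b hb g) _ h5
      change g * (b * u * b⁻¹) * g⁻¹ ∈ M
      convert h6 using 1
      group
  have hMxcomap : ∀ M g, Mx M → Mx (M.comap (MulAut.conj g).toMonoidHom) := by
    rintro M g ⟨h1, h2⟩
    refine ⟨hPcomap M g h1, ?_⟩
    intro M' hM' hle
    have h3 := hPcomap M' g⁻¹ hM'
    have h4 : M ≤ M'.comap (MulAut.conj g⁻¹).toMonoidHom := by
      intro x hx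
      change g⁻¹ * x * g⁻¹⁻¹ ∈ M'
      apply hle
      change g * (g⁻¹ * x * g⁻¹⁻¹) * g⁻¹ ∈ M
      have : g * (g⁻¹ * x * g⁻¹⁻¹) * g⁻¹ = x := by group
      rwa [this]
    have h5 := h2 _ h3 h4
    apply le_antisymm _ hle
    intro x hx
    change g * x * g⁻¹ ∈ M
    rw [← h5]
    change g⁻¹ * (g * x * g⁻¹) * g⁻¹⁻¹ ∈ M'
    have : g⁻¹ * (g * x * g⁻¹) * g⁻¹⁻¹ = x := by group
    rwa [this]
  have hPN : P N := ⟨le_refl _, hNW, hne, fun b _ u hu => hN.conj_mem u hu b⟩
  -- every `P` is below an `Mx`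
  have hexMx : ∃ M, Mx M := by
    obtain ⟨M, hM, hmax⟩ := WellFounded.has_min (α := Subgroup G) (r := (· > ·)) wellFounded_gt
      {M | P M} ⟨N, hPN⟩
    refine ⟨M, hM, ?_⟩
    intro M' hM' hle
    by_contra hne'
    exact hmax M' hM' (lt_of_le_of_ne hle (Ne.symm hne'))
  obtain ⟨M0, hM0⟩ := hexMx
  let I : Subgroup G := sInf {M | Mx M}
  have hI : I = N := by
    have hInormal : I.Normal := by
      constructor
      intro x hx g
      rw [Subgroup.mem_sInf] at hx ⊢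
      intro M hM
      exact hx _ (hMxcomap M g hM)
    have h1 : N ≤ I := by
      apply le_sInf
      intro M hM
      exact hM.1.1
    have h2 : I ≤ M0 := sInf_le hM0
    rcases hchief I hInormal h1 (le_trans h2 hM0.1.2.1) with h | h
    · exact h
    · exfalso
      rw [h] at h2
      exact hM0.1.2.2.1 (le_antisymm hM0.1.2.1 h2)
  -- key property of maximal ones
  have hkey : ∀ M, Mx M → ∀ μ : G → ℂ, IsLin W M μ → (∃ w ∈ W, μ w ≠ 1) → ∀ b ∈ B,
      (∀ w ∈ W, μ ⁅b, w⁆ = 1) → ∀ w ∈ W, ⁅b, w⁆ ∈ M := by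
    rintro M ⟨⟨h1, h2, h3, h4⟩, h5⟩ μ hμ ⟨w0, hw0, hμ0⟩ b hb hfix
    let X : Subgroup G := M ⊔ Subgroup.closure {x | ∃ w ∈ W, x = ⁅b, w⁆}
    let Kμ : Subgroup G :=
      { carrier := {x | x ∈ W ∧ μ x = 1}
        mul_mem' := by
          rintro x y ⟨hx, hx1⟩ ⟨hy, hy1⟩
          exact ⟨W.mul_mem hx hy, by rw [hμ.mul x hx y hy, hx1, hy1, mul_one]⟩
        one_mem' := ⟨W.one_mem, hμ.one'⟩
        inv_mem' := by
          rintro x ⟨hx, hx1⟩
          exact ⟨W.inv_mem hx, by rw [hμ.inv hx, hx1, inv_one]⟩ }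
    have hXK : X ≤ Kμ := by
      apply sup_le
      · intro x hx
        exact ⟨h2 hx, hμ.one x hx⟩
      · rw [Subgroup.closure_le]
        rintro x ⟨w, hw, rfl⟩
        exact ⟨comm_mem_of_normal hW b hw, hfix w hw⟩
    have hXW : X ≤ W := fun x hx => (hXK hx).1
    have hXne : X ≠ W := by
      intro h
      apply hμ0
      have : w0 ∈ X := by rw [h]; exact hw0
      exact (hXK this).2
    have hcl : ∀ w ∈ W, ⁅b, w⁆ ∈ X := fun w hw =>
      (le_sup_right : _ ≤ X) (Subgroup.subset_closure ⟨w, hw, rfl⟩)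
    have hXinv : Inv' B X := by
      intro g hg
      have : X ≤ X.comap (MulAut.conj g).toMonoidHom := by
        apply sup_le
        · intro x hx
          exact (le_sup_left : _ ≤ X) (h4 g hg x hx)
        · rw [Subgroup.closure_le]
          rintro x ⟨w, hw, rfl⟩
          change g * ⁅b, w⁆ * g⁻¹ ∈ X
          have hw' : g * w * g⁻¹ ∈ W := hW.conj_mem w hw g
          have hz : ⁅b, g * w * g⁻¹⁆ * (g * w * g⁻¹) ∈ W :=
            W.mul_mem (comm_mem_of_normal hW b hw') hw'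
          have e1 : g * ⁅b, w⁆ * g⁻¹ =
              ⁅⁅g, b⁆, ⁅b, g * w * g⁻¹⁆ * (g * w * g⁻¹)⁆ * ⁅b, g * w * g⁻¹⁆ := by
            simp only [commutatorElement_def]; group
          rw [e1]
          exact X.mul_mem ((le_sup_left : _ ≤ X) (h1 (hBB g hg b hb _ hz))) (hcl _ hw')
      intro u hu
      exact this hu
    have hPX : P X := ⟨le_trans h1 le_sup_left, hXW, hXne, hXinv⟩
    have hXM := h5 X hPX le_sup_left
    intro w hw
    rw [← hXM]
    exact hcl w hw
  -- minimal pairs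
  let Q : Subgroup G → Prop := fun U => N ≤ U ∧ U ≤ W ∧ Inv' B U ∧ ∃ l : G → ℂ, IsLin W U l ∧
    ∀ b ∈ B, (∀ w ∈ W, l ⁅b, w⁆ = 1) → ∀ w ∈ W, ⁅b, w⁆ ∈ U
  have hQW : Q W := ⟨hNW, le_refl _, fun b _ u hu => hW.conj_mem u hu b, fun _ => 1,
    ⟨fun _ _ _ _ => by simp, fun _ _ => rfl⟩, fun b _ _ w hw => comm_mem_of_normal hW b hw⟩
  obtain ⟨U, hU, hmin⟩ := WellFounded.has_min (α := Subgroup G) (r := (· < ·)) wellFounded_lt
    {U | Q U} ⟨W, hQW⟩
  obtain ⟨hU1, hU2, hU3, l, hl, hU4⟩ := hU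
  have hUN : U = N := by
    by_contra hUne
    have : ∃ M, Mx M ∧ ¬ U ≤ M := by
      by_contra h
      push Not at h
      have h1 : U ≤ I := le_sInf (fun M hM => h M hM)
      rw [hI] at h1
      exact hUne (le_antisymm h1 hU1)
    obtain ⟨M, hM, hUM⟩ := this
    obtain ⟨⟨h1, h2, h3, h4⟩, h5⟩ := id hM
    obtain ⟨μ, hμ, hμne⟩ := exists_lin M W h2 h3 (fun u hu v hv => h1 (hab u hu v hv))
    have hsup : U ⊔ M = W := by
      by_contra hsne
      have hP : P (U ⊔ M) := by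
        refine ⟨le_trans hU1 le_sup_left, sup_le hU2 h2, hsne, ?_⟩
        intro g hg
        have : U ⊔ M ≤ (U ⊔ M).comap (MulAut.conj g).toMonoidHom := by
          apply sup_le
          · intro x hx
            exact (le_sup_left : _ ≤ U ⊔ M) (hU3 g hg x hx)
          · intro x hx
            exact (le_sup_right : _ ≤ U ⊔ M) (h4 g hg x hx)
        intro u hu
        exact this hu
      have h6 := h5 _ hP le_sup_right
      apply hUM
      rw [← h6]
      exact le_sup_left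
    have hQ : Q (U ⊓ M) := by
      refine ⟨le_inf hU1 h1, le_trans inf_le_left hU2, ?_, fun g => l g * μ g, ⟨?_, ?_⟩, ?_⟩
      · intro b hb u hu
        exact ⟨hU3 b hb u hu.1, h4 b hb u hu.2⟩
      · intro u hu v hv
        rw [hl.mul u hu v hv, hμ.mul u hu v hv]; ring
      · intro n hn
        rw [hl.one n hn.1, hμ.one n hn.2, mul_one]
      · intro b hb hfix
        let S : Subgroup G :=
          { carrier := {x | x ∈ W ∧ μ ⁅b, x⁆ = 1}
            mul_mem' := by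
              rintro x y ⟨hx, hx1⟩ ⟨hy, hy1⟩
              exact ⟨W.mul_mem hx hy, by rw [hμ.comm_mul hW b hx hy, hx1, hy1, mul_one]⟩
            one_mem' := ⟨W.one_mem, by rw [commutatorElement_one_right]; exact hμ.one'⟩
            inv_mem' := by
              rintro x ⟨hx, hx1⟩
              refine ⟨W.inv_mem hx, ?_⟩
              have h6 := hμ.comm_mul hW b hx (W.inv_mem hx)
              rw [mul_inv_cancel, commutatorElement_one_right, hμ.one', hx1, one_mul] at h6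
              exact h6.symm }
        have hUS : U ≤ S := by
          intro u hu
          refine ⟨hU2 hu, ?_⟩
          have h6 : ⁅b, u⁆ ∈ U := by
            rw [commutatorElement_def]
            exact U.mul_mem (hU3 b hb u hu) (U.inv_mem hu)
          have h7 := hfix u (hU2 hu)
          change l ⁅b, u⁆ * μ ⁅b, u⁆ = 1 at h7
          rw [hl.one _ h6, one_mul] at h7
          exact h7
        have hMS : M ≤ S := by
          intro u hu
          refine ⟨h2 hu, ?_⟩
          apply hμ.one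
          rw [commutatorElement_def]
          exact M.mul_mem (h4 b hb u hu) (M.inv_mem hu)
        have hWS : W ≤ S := by
          rw [← hsup]; exact sup_le hUS hMS
        have hμfix : ∀ w ∈ W, μ ⁅b, w⁆ = 1 := fun w hw => (hWS hw).2
        have hlfix : ∀ w ∈ W, l ⁅b, w⁆ = 1 := by
          intro w hw
          have h7 := hfix w hw
          change l ⁅b, w⁆ * μ ⁅b, w⁆ = 1 at h7
          rw [hμfix w hw, mul_one] at h7
          exact h7
        intro w hw
        exact ⟨hU4 b hb hlfix w hw, hkey M hM μ hμ hμne b hb hμfix w hw⟩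
    exact hmin _ hQ (lt_of_le_of_ne inf_le_left (fun h => hUM (by rw [← h]; exact inf_le_right)))
  subst hUN
  by_cases hlne : ∃ w ∈ W, l w ≠ 1
  · exact ⟨l, hl, hlne, hU4⟩
  · push Not at hlne
    obtain ⟨μ, hμ, hμne⟩ := exists_lin U W hNW hne hab
    refine ⟨μ, hμ, hμne, ?_⟩
    intro b hb _
    exact hU4 b hb (fun w hw => hlne _ (comm_mem_of_normal hW b hw))

end Pool.Agent.Helper721_Z
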