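import Mathlib
import Pool.Agent.Helper721_Z.Lay
import Pool.Agent.Helper721_Z.Reg

/-!
# Chief series and centralisers of their upper parts
-/

set_option autoImplicit false
open CategoryTheory
open scoped commutatorElement

namespace Pool.Agent.Helper721_Z

variable {G : Type} [Group G]

/-- the part below `P` of a chief series of `G` -/
structure CSer (G : Type) [Group G] (P : Subgroup G) where
  k : ℕ
  N : ℕ → Subgroup G
  nor : ∀ i, (N i).Normal
  bot : N 0 = ⊥
  top : N k = P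
  lt : ∀ i < k, N i < N (i + 1)
  chief : ∀ i < k, ∀ M : Subgroup G, M.Normal → N i ≤ M → M ≤ N (i + 1) → M = N i ∨ M = N (i + 1)

theorem exists_cser [Finite G] (P : Subgroup G) (hP : P.Normal) : Nonempty (CSer G P) := by
  let x : {M : Subgroup G // M.Normal} := ⟨⊥, inferInstance⟩
  let y : {M : Subgroup G // M.Normal} := ⟨P, hP⟩
  have hxy : x ≤ y := (bot_le : (⊥ : Subgroup G) ≤ P)
  obtain ⟨a, h0, n, hn, hcov⟩ := exists_covBy_seq_of_wellFoundedLT_wellFoundedGT_of_le hxy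
  refine ⟨⟨n, fun i => (a i).1, fun i => (a i).2, by rw [h0], by rw [hn], ?_, ?_⟩⟩
  · intro i hi
    exact (hcov i hi).1
  · intro i hi M hM h1 h2
    by_contra h
    push Not at h
    have h3 : a i < ⟨M, hM⟩ := lt_of_le_of_ne h1 (fun he => h.1 (congrArg Subtype.val he).symm)
    have h4 : (⟨M, hM⟩ : {M : Subgroup G // M.Normal}) < a (i + 1) :=
      lt_of_le_of_ne h2 (fun he => h.2 (congrArg Subtype.val he))
    exact (hcov i hi).2 h3 h4

namespace CSer
variable {P : Subgroup G} (s : CSer G P)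

theorem mono {i j : ℕ} (hij : i ≤ j) (hj : j ≤ s.k) : s.N i ≤ s.N j := by
  induction j, hij using Nat.le_induction with
  | base => exact le_refl _
  | succ n _ ih => exact le_trans (ih (by omega)) (s.lt n (by omega)).le

/-- the common centraliser of the chief factors from index `i` on -/
def D (i : ℕ) : Subgroup G where
  carrier := {g | ∀ j, i ≤ j → j < s.k → ∀ w ∈ s.N (j + 1), ⁅g, w⁆ ∈ s.N j}
  mul_mem' := by
    intro g h hg hh j hij hj w hw
    have := s.nor j
    have := s.nor (j + 1)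
    have h1 := hh j hij hj w hw
    have h2 := hg j hij hj w hw
    have h3 := (s.nor j).conj_mem _ h1 g
    have h4 := (s.N j).mul_mem h3 h2
    convert h4 using 1
    simp only [commutatorElement_def]; group
  one_mem' := by
    intro j _ _ w _
    rw [commutatorElement_one_left]
    exact (s.N j).one_mem
  inv_mem' := by
    intro g hg j hij hj w hw
    have h2 := hg j hij hj w hw
    have h3 := (s.nor j).conj_mem _ ((s.N j).inv_mem h2) g⁻¹
    convert h3 using 1
    simp only [commutatorElement_def]; group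

theorem mem_D {i : ℕ} {g : G} : g ∈ s.D i ↔
    ∀ j, i ≤ j → j < s.k → ∀ w ∈ s.N (j + 1), ⁅g, w⁆ ∈ s.N j := Iff.rfl

theorem D_normal (i : ℕ) : (s.D i).Normal := by
  constructor
  intro n hn g j hij hj w hw
  have h1 : g⁻¹ * w * g ∈ s.N (j + 1) := by
    have := (s.nor (j + 1)).conj_mem w hw g⁻¹
    rwa [inv_inv] at this
  have h2 := hn j hij hj _ h1
  have h3 := (s.nor j).conj_mem _ h2 g
  convert h3 using 1
  simp only [commutatorElement_def]; group

theorem D_mono {i j : ℕ} (h : i ≤ j) : s.D i ≤ s.D j :=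
  fun _ hg a ha hak => hg a (le_trans h ha) hak

theorem D_top {i : ℕ} (h : s.k ≤ i) : s.D i = ⊤ := by
  rw [Subgroup.eq_top_iff']
  intro g j hij hj
  omega

theorem mem_D_of {i : ℕ} {g : G} (h : g ∈ s.D (i + 1)) (h2 : ∀ w ∈ s.N (i + 1), ⁅g, w⁆ ∈ s.N i) :
    g ∈ s.D i := by
  intro j hij hj
  rcases Nat.eq_or_lt_of_le hij with rfl | h3
  · exact h2
  · exact h j h3 hj

end CSer

/-- In a solvable group chief factors are abelian. -/
theorem chief_abelian (hG : Group.IsSolvable G) {N W : Subgroup G} (hN : N.Normal) (hW : W.Normal)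
    (hNW : N < W) (hc : ∀ M : Subgroup G, M.Normal → N ≤ M → M ≤ W → M = N ∨ M = W) :
    ∀ u ∈ W, ∀ v ∈ W, ⁅u, v⁆ ∈ N := by
  let f := QuotientGroup.mk' N
  have h1 : W.map f ≠ ⊥ := by
    intro h
    rw [Subgroup.map_eq_bot_iff, QuotientGroup.ker_mk'] at h
    exact absurd (lt_of_lt_of_le hNW h) (lt_irrefl _)
  have h2 := Group.IsSolvable.commutator_lt_of_ne_bot h1
  have h3 : (⁅W, W⁆ ⊔ N) = N := by
    have hn : (⁅W, W⁆ ⊔ N).Normal := inferInstance
    rcases hc _ hn le_sup_right (sup_le (Subgroup.commutator_le_left W W) hNW.le) with h | h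
    · exact h
    · exfalso
      have h4 : ⁅W.map f, W.map f⁆ = W.map f := by
        rw [← Subgroup.map_commutator]
        have h5 := congrArg (fun X => Subgroup.map f X) h
        simp only [Subgroup.map_sup] at h5
        rw [← h5]
        have h6 : Subgroup.map f N = ⊥ := by
          rw [Subgroup.map_eq_bot_iff, QuotientGroup.ker_mk']
        rw [h6, sup_bot_eq]
      rw [h4] at h2
      exact lt_irrefl _ h2
  intro u hu v hv
  rw [← h3]
  exact (le_sup_left : ⁅W, W⁆ ≤ ⁅W, W⁆ ⊔ N) (Subgroup.commutator_mem_commutator hu hv)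

/-- Between normal subgroups `D < D'` of a solvable group there is a normal `B > D` with `B/D`
abelian. -/
theorem exists_abelian_between [Finite G] (hG : Group.IsSolvable G) {D D' : Subgroup G} (hD : D.Normal)
    (hD' : D'.Normal) (h : D < D') :
    ∃ B : Subgroup G, B.Normal ∧ D < B ∧ B ≤ D' ∧ ∀ u ∈ B, ∀ v ∈ B, ⁅u, v⁆ ∈ D := by
  obtain ⟨B, ⟨hB1, hB2, hB3⟩, hmin⟩ := WellFounded.has_min (α := Subgroup G) (r := (· < ·))
    wellFounded_lt {B | B.Normal ∧ D < B ∧ B ≤ D'} ⟨D', hD', h, le_refl _⟩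
  refine ⟨B, hB1, hB2, hB3, chief_abelian hG hD hB1 hB2 ?_⟩
  intro M hM h1 h2
  by_contra hc
  push Not at hc
  exact hmin M ⟨hM, lt_of_le_of_ne h1 (Ne.symm hc.1), le_trans h2 hB3⟩ (lt_of_le_of_ne h2 hc.2)

namespace CSer
variable {P : Subgroup G} (s : CSer G P)

/-- (*) of the paper -/
theorem jump [Finite G] (hG : Group.IsSolvable G) {i : ℕ} (hi : i < s.k) (B : Subgroup G)
    (hB : B.Normal) (hB2 : B ≤ s.D (i + 1)) (hab : ∀ u ∈ B, ∀ v ∈ B, ⁅u, v⁆ ∈ s.D i) :
    ∃ l : G → ℂ, IsLin (s.N (i + 1)) (s.N i) l ∧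
      (∀ b ∈ B, (∀ w ∈ s.N (i + 1), l ⁅b, w⁆ = 1) → b ∈ s.D i) ∧
      ∃ V : FDRep ℂ G, Simple V ∧ (∀ n ∈ s.N i, V.ρ n = 1) ∧
        (∀ x, (∀ g, ∃ w ∈ s.N (i + 1), l ⁅g * x * g⁻¹, w⁆ ≠ 1) → V.character x = 0) ∧
        (∀ x, Good (s.N i) (s.N (i + 1)) x → V.character x = 0) := by
  have hab' := chief_abelian hG (s.nor i) (s.nor (i + 1)) (s.lt i hi) (s.chief i hi)
  obtain ⟨l, hl, hlne, hreg⟩ := exists_regular (s.N i) (s.N (i + 1)) B (s.nor i) (s.nor (i + 1))
    hB (s.lt i hi).le (s.lt i hi).ne hab' (s.chief i hi)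
    (fun a ha b hb w hw => hab a ha b hb i (le_refl _) hi w hw)
  obtain ⟨V, hV, h1, h2, h3, -⟩ := exists_rep (s.N i) (s.N (i + 1)) (s.nor (i + 1)) l (s.nor i)
    (s.lt i hi).le hl hlne
  exact ⟨l, hl, fun b hb hfix => s.mem_D_of (hB2 hb) (hreg b hb hfix), V, hV, h1, h2, h3⟩

end CSer

/-- Lemma 3 for a set of layers of one series. -/
theorem chain_bound' [Finite G] {m : ℕ} (hm : ZB m G) (k : ℕ) (N : ℕ → Subgroup G)
    (hN : ∀ i, (N i).Normal) (hmono : ∀ i j, i ≤ j → j ≤ k → N i ≤ N j) (J : Finset ℕ)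
    (hJ : ∀ i ∈ J, i < k)
    (V : ℕ → FDRep ℂ G) (hV : ∀ i ∈ J, Simple (V i)) (hVA : ∀ i ∈ J, ∀ n ∈ N i, (V i).ρ n = 1)
    (hVG : ∀ i ∈ J, ∀ x, Good (N i) (N (i + 1)) x → (V i).character x = 0)
    (x : ℕ → G) (hx : ∀ i ∈ J, (V i).character (x i) = 0)
    (hne : ∀ i ∈ J, ∀ j ∈ J, j < i → ¬ IsConj (x j) (x i)) : J.card ≤ (m + 1) ^ 2 := by
  classical
  let e : ℕ → ℕ := fun t => if h : t < J.card then J.orderEmbOfFin rfl ⟨t, h⟩ else 0
  have he : ∀ t (h : t < J.card), e t = J.orderEmbOfFin rfl ⟨t, h⟩ := fun t h => dif_pos h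
  have heJ : ∀ t, t < J.card → e t ∈ J := by
    intro t h
    rw [he t h]
    exact Finset.orderEmbOfFin_mem J rfl _
  have hlt : ∀ t t', t < t' → t' < J.card → e t < e t' := by
    intro t t' h h'
    rw [he t (by omega), he t' h']
    exact (J.orderEmbOfFin rfl).strictMono h
  apply chain_bound hm J.card (fun t => N (e t)) (fun t => N (e t + 1)) (fun t => hN _)
    (V := fun t => V (e t)) (x := fun t => x (e t))
  · intro t ht
    have h1 := hlt t (t + 1) (by omega) ht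
    have h2 := hJ _ (heJ (t + 1) ht)
    exact ⟨hmono _ _ (by omega) (by omega), hmono _ _ (by omega) (by omega)⟩
  · intro t ht; exact hV _ (heJ t ht)
  · intro t ht; exact hVA _ (heJ t ht)
  · intro t ht; exact hVG _ (heJ t ht)
  · intro t ht; exact hx _ (heJ t ht)
  · intro t ht t' ht'
    exact hne _ (heJ t ht) _ (heJ t' (by omega)) (hlt t' t ht' ht)

end Pool.Agent.Helper721_Z
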