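import Mathlib

set_option autoImplicit false

namespace Pool.Agent.Helper721_Z

theorem card_le_of_fibers {α β : Type*} [Finite α] [Finite β] (g : α → β) (n : ℕ)
    (h : ∀ b, Nat.card {a // g a = b} ≤ n) : Nat.card α ≤ n * Nat.card β := by
  classical
  have := Fintype.ofFinite α
  have := Fintype.ofFinite β
  rw [Nat.card_eq_fintype_card, Nat.card_eq_fintype_card]
  have := Finset.card_le_mul_card_image_of_maps_to (s := (Finset.univ : Finset α))
    (t := (Finset.univ : Finset β)) (f := g) (fun _ _ => Finset.mem_univ _) n (fun b _ => by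
    have := h b
    rw [Nat.card_eq_fintype_card, Fintype.card_subtype] at this
    exact this)
  simpa using this

theorem card_le_of_range {ι α : Type*} [Finite ι] (φ : ι → α) (S : Set α)
    (h : ∀ a ∈ S, ∃ i, φ i = a) : Nat.card S ≤ Nat.card ι := by
  choose g hg using h
  refine Nat.card_le_card_of_injective (fun a : S => g a.1 a.2) ?_
  intro a b hab
  apply Subtype.ext
  rw [← hg a.1 a.2, ← hg b.1 b.2]
  exact congrArg φ hab

/-- the conjugates of the elements of a set `S` normalised by `C` -/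
theorem card_union_conj_le {Γ : Type*} [Group Γ] [Finite Γ] (C : Subgroup Γ) (S U : Set Γ)
    (h : ∀ c ∈ C, ∀ s ∈ S, c * s * c⁻¹ ∈ S) (hU : ∀ u ∈ U, ∃ g : Γ, ∃ s ∈ S, u = g * s * g⁻¹) :
    Nat.card U ≤ C.index * Nat.card S := by
  have h1 : Nat.card U ≤ Nat.card ((Γ ⧸ C) × S) := by
    refine card_le_of_range (fun p : (Γ ⧸ C) × S => p.1.out * p.2.1 * p.1.out⁻¹) U ?_
    intro u hu
    obtain ⟨g, s, hs, rfl⟩ := hU u hu
    have hg : ((QuotientGroup.mk g : Γ ⧸ C).out)⁻¹ * g ∈ C := by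
      rw [← QuotientGroup.eq]
      exact Quotient.out_eq' _
    refine ⟨(QuotientGroup.mk g, ⟨_, h _ hg s hs⟩), ?_⟩
    simp only
    group
  rwa [Nat.card_prod] at h1

/-- size of a class -/
theorem card_class_le {Γ : Type*} [Group Γ] [Finite Γ] (C K : Subgroup Γ) (x : Γ)
    (h : ∀ c ∈ C, c * x * c⁻¹ * x⁻¹ ∈ K) (hK : K.Normal) :
    Nat.card {y : Γ // ConjClasses.mk y = ConjClasses.mk x} ≤ C.index * Nat.card K := by
  have h1 : Nat.card {y : Γ // ConjClasses.mk y = ConjClasses.mk x} ≤ C.index * Nat.card ((fun k => k * x) '' (K : Set Γ)) := by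
    refine card_union_conj_le C ((fun k => k * x) '' (K : Set Γ)) {y : Γ | ConjClasses.mk y = ConjClasses.mk x} ?_ ?_
    · rintro c hc _ ⟨k, hk, rfl⟩
      refine ⟨(c * k * c⁻¹) * (c * x * c⁻¹ * x⁻¹), ?_, by simp only; group⟩
      exact K.mul_mem (hK.conj_mem k hk c) (h c hc)
    · intro u hu
      have hu' : ConjClasses.mk x = ConjClasses.mk u := Eq.symm hu
      rw [ConjClasses.mk_eq_mk_iff_isConj, isConj_iff] at hu'
      obtain ⟨g, hg⟩ := hu'
      exact ⟨g, x, ⟨1, K.one_mem, by simp⟩, hg.symm⟩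
  refine h1.trans (Nat.mul_le_mul_left _ ?_)
  exact Nat.card_image_le (Set.toFinite _)

/-- the number of classes of `Γ` that meet `S` -/
noncomputable def ncl {Γ : Type*} [Group Γ] (S : Set Γ) : ℕ := Nat.card (ConjClasses.mk '' S)

theorem card_le_ncl {Γ : Type*} [Group Γ] [Finite Γ] (S : Set Γ) (n : ℕ)
    (h : ∀ x ∈ S, Nat.card {y : Γ // ConjClasses.mk y = ConjClasses.mk x} ≤ n) :
    Nat.card S ≤ n * ncl S := by
  refine card_le_of_fibers (fun x : S => (⟨ConjClasses.mk x.1, x.1, x.2, rfl⟩ : ConjClasses.mk '' S)) n ?_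
  rintro ⟨_, x, hx, rfl⟩
  refine le_trans ?_ (h x hx)
  refine Nat.card_le_card_of_injective (fun a => ⟨a.1.1, congrArg Subtype.val a.2⟩) ?_
  intro a b hab
  have : a.1.1 = b.1.1 := by simpa using hab
  exact Subtype.ext (Subtype.ext this)

theorem ncl_mono {Γ : Type*} [Group Γ] [Finite Γ] {S T : Set Γ} (h : S ⊆ T) : ncl S ≤ ncl T := by
  unfold ncl
  exact Nat.card_mono (Set.toFinite _) (Set.image_mono h)

/-- nilpotency step -/
theorem nilp_step {Γ : Type*} [Group Γ] (H : Subgroup Γ) (hnil : Group.IsNilpotent H)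
    (K B : Subgroup Γ) (hB : B.Normal) (hBH : B ≤ H) (hKB : ¬ B ≤ K) :
    ∃ x ∈ B, x ∉ K ∧ ∀ h ∈ H, h * x * h⁻¹ * x⁻¹ ∈ K := by
  by_contra hcon
  push Not at hcon
  have key : ∀ n : ℕ, ∃ x : Γ, x ∈ B ∧ x ∉ K ∧ x ∈ H.lowerCentralSeries n := by
    intro n
    induction n with
    | zero =>
      obtain ⟨x, hx, hxK⟩ := SetLike.not_le_iff_exists.mp hKB
      exact ⟨x, hx, hxK, hBH hx⟩
    | succ n ih =>
      obtain ⟨x, hx, hxK, hxn⟩ := ih
      obtain ⟨h, hh, hhx⟩ := hcon x hx hxK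
      have hmem : h * x * h⁻¹ * x⁻¹ ∈ B := B.mul_mem (hB.conj_mem x hx h) (B.inv_mem hx)
      refine ⟨_, hmem, hhx, ?_⟩
      rw [Subgroup.lowerCentralSeries_succ, Subgroup.commutator_comm]
      exact Subgroup.commutator_mem_commutator hh hxn
  obtain ⟨n, hn⟩ := H.isNilpotent_iff_lowerCentralSeries.mp hnil
  obtain ⟨x, _, hxK, hx⟩ := key n
  rw [hn, Subgroup.mem_bot] at hx
  exact hxK (hx ▸ K.one_mem)

/-- `{x ∈ B : [h, x] ∈ K for all h ∈ H}` -/
def upK {Γ : Type*} [Group Γ] (H K B : Subgroup Γ) (hK : K.Normal) : Subgroup Γ where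
  carrier := {x | x ∈ B ∧ ∀ h ∈ H, h * x * h⁻¹ * x⁻¹ ∈ K}
  one_mem' := ⟨B.one_mem, fun h _ => by simp⟩
  mul_mem' := by
    rintro x y ⟨hx, hx'⟩ ⟨hy, hy'⟩
    refine ⟨B.mul_mem hx hy, fun h hh => ?_⟩
    have e : h * (x * y) * h⁻¹ * (x * y)⁻¹ = (h * x * h⁻¹ * x⁻¹) * (x * (h * y * h⁻¹ * y⁻¹) * x⁻¹) := by group
    rw [e]
    exact K.mul_mem (hx' h hh) (hK.conj_mem _ (hy' h hh) x)
  inv_mem' := by
    rintro x ⟨hx, hx'⟩
    refine ⟨B.inv_mem hx, fun h hh => ?_⟩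
    have e : h * x⁻¹ * h⁻¹ * (x⁻¹)⁻¹ = x⁻¹ * (x * h * x⁻¹ * h⁻¹) * x := by group
    have e2 : h * x⁻¹ * h⁻¹ * (x⁻¹)⁻¹ = x⁻¹ * (x * (h * x⁻¹ * h⁻¹)) * (x⁻¹)⁻¹ := by group
    have e3 : x * (h * x⁻¹ * h⁻¹) = (h * x * h⁻¹ * x⁻¹)⁻¹ := by group
    rw [e2, e3]
    exact hK.conj_mem _ (K.inv_mem (hx' h hh)) x⁻¹

theorem mem_upK {Γ : Type*} [Group Γ] (H K B : Subgroup Γ) (hK : K.Normal) (x : Γ) :
    x ∈ upK H K B hK ↔ x ∈ B ∧ ∀ h ∈ H, h * x * h⁻¹ * x⁻¹ ∈ K := Iff.rfl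

theorem upK_normal {Γ : Type*} [Group Γ] (H K B : Subgroup Γ) (hH : H.Normal) (hB : B.Normal) (hK : K.Normal) :
    (upK H K B hK).Normal := by
  constructor
  rintro x ⟨hx, hx'⟩ g
  refine ⟨hB.conj_mem x hx g, fun h hh => ?_⟩
  have e : h * (g * x * g⁻¹) * h⁻¹ * (g * x * g⁻¹)⁻¹ =
      g * ((g⁻¹ * h * g) * x * (g⁻¹ * h * g)⁻¹ * x⁻¹) * g⁻¹ := by group
  rw [e]
  refine hK.conj_mem _ (hx' _ ?_) g
  have := hH.conj_mem h hh g⁻¹
  simpa using this

theorem card_B {Γ : Type*} [Group Γ] [Finite Γ] (H : Subgroup Γ) (hH : H.Normal) (hnil : Group.IsNilpotent H)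
    (m f : ℕ) (hf : H.index ≤ f) (B : Subgroup Γ) (hB : B.Normal) (hBH : B ≤ H) :
    ∀ k : ℕ, k ≤ m → ∀ K : Subgroup Γ, K.Normal → K ≤ B → ncl ((B : Set Γ) \ K) ≤ k →
      Nat.card B ≤ Nat.card K * (1 + m * f) ^ k := by
  intro k
  induction k with
  | zero =>
    intro _ K hK hKB hn
    have h0 : (B : Set Γ) \ K = ∅ := by
      by_contra hne
      replace hne := Set.nonempty_iff_ne_empty.mpr hne
      have : 0 < ncl ((B : Set Γ) \ K) := by
        unfold ncl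
        have : Nonempty (ConjClasses.mk '' ((B : Set Γ) \ K)) := (hne.image _).to_subtype
        exact Nat.card_pos
      omega
    have : B ≤ K := by
      intro x hx
      by_contra hxK
      have : x ∈ (B : Set Γ) \ K := ⟨hx, hxK⟩
      rw [h0] at this
      exact this
    have : B = K := le_antisymm this hKB
    simp [this]
  | succ k ih =>
    intro hk K hK hKB hn
    by_cases hBK : B ≤ K
    · have : B = K := le_antisymm hBK hKB
      rw [this]
      exact Nat.le_mul_of_pos_right _ (by positivity)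
    · obtain ⟨x, hxB, hxK, hx⟩ := nilp_step H hnil K B hB hBH hBK
      set K' := upK H K B hK with hK'
      have hK'n : K'.Normal := upK_normal H K B hH hB hK
      have hKK' : K ≤ K' := by
        intro y hy
        refine ⟨hKB hy, fun h _ => K.mul_mem (hK.conj_mem y hy h) (K.inv_mem hy)⟩
      have hK'B : K' ≤ B := fun y hy => hy.1
      -- number of classes
      have hlt : ncl ((B : Set Γ) \ K') < ncl ((B : Set Γ) \ K) := by
        unfold ncl
        refine Set.ncard_lt_ncard (s := ConjClasses.mk '' ((B : Set Γ) \ K')) (t := ConjClasses.mk '' ((B : Set Γ) \ K)) ?_ (Set.toFinite _)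
        have hss : (B : Set Γ) \ K' ⊆ (B : Set Γ) \ K := fun y hy => ⟨hy.1, fun h => hy.2 (hKK' h)⟩
        rw [Set.ssubset_iff_of_subset (Set.image_mono hss)]
        refine ⟨ConjClasses.mk x, ⟨x, ⟨hxB, hxK⟩, rfl⟩, ?_⟩
        rintro ⟨y, ⟨hyB, hyK'⟩, hyx⟩
        rw [ConjClasses.mk_eq_mk_iff_isConj, isConj_iff] at hyx
        obtain ⟨g, hg⟩ := hyx
        apply hyK'
        have hxK' : x ∈ K' := ⟨hxB, hx⟩
        have := hK'n.conj_mem x hxK' g⁻¹
        rw [← hg] at this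
        have e : g⁻¹ * (g * y * g⁻¹) * g⁻¹⁻¹ = y := by group
        rwa [e] at this
      have h1 := ih (by omega) K' hK'n hK'B (by omega)
      -- size of K'
      have h2 : Nat.card K' ≤ Nat.card K * (1 + m * f) := by
        have h3 : Nat.card ((K' : Set Γ) \ K : Set Γ) ≤ (f * Nat.card K) * ncl ((K' : Set Γ) \ K) := by
          refine card_le_ncl _ _ ?_
          intro y hy
          exact (card_class_le H K y hy.1.2 hK).trans (Nat.mul_le_mul_right _ hf)
        have h4 : ncl ((K' : Set Γ) \ K) ≤ m := by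
          have : ncl ((K' : Set Γ) \ K) ≤ ncl ((B : Set Γ) \ K) := ncl_mono (fun y hy => ⟨hK'B hy.1, hy.2⟩)
          omega
        have h5 : Nat.card K' = Nat.card K + Nat.card ((K' : Set Γ) \ K : Set Γ) := by
          have := Set.ncard_sdiff_add_ncard_of_subset (s := (K : Set Γ)) (t := (K' : Set Γ)) hKK' (Set.toFinite _)
          have e1 : Nat.card K' = (K' : Set Γ).ncard := rfl
          have e2 : Nat.card K = (K : Set Γ).ncard := rfl
          have e3 : Nat.card ((K' : Set Γ) \ K : Set Γ) = ((K' : Set Γ) \ K).ncard := rfl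
          omega
        calc Nat.card K' = Nat.card K + Nat.card ((K' : Set Γ) \ K : Set Γ) := h5
          _ ≤ Nat.card K + (f * Nat.card K) * m := by
              have := Nat.mul_le_mul_left (f * Nat.card K) h4
              omega
          _ = Nat.card K * (1 + m * f) := by ring
      calc Nat.card B ≤ Nat.card K' * (1 + m * f) ^ k := h1
        _ ≤ (Nat.card K * (1 + m * f)) * (1 + m * f) ^ k := Nat.mul_le_mul_right _ h2
        _ = Nat.card K * (1 + m * f) ^ (k + 1) := by ring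

theorem centralizer_index_le {Γ : Type*} [Group Γ] [Finite Γ] (B : Subgroup Γ) (hB : B.Normal) :
    (Subgroup.centralizer (B : Set Γ)).index ≤ Nat.card B ^ Nat.card B := by
  have : Nat.card (Γ ⧸ Subgroup.centralizer (B : Set Γ)) ≤ Nat.card (B → B) := by
    refine Nat.card_le_card_of_injective
      (fun q => fun β => ⟨q.out * β.1 * q.out⁻¹, hB.conj_mem _ β.2 _⟩) ?_
    intro q q' h
    rw [← QuotientGroup.out_eq' q, ← QuotientGroup.out_eq' q', QuotientGroup.eq, Subgroup.mem_centralizer_iff]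
    intro x hx
    have h1 := congrFun h ⟨x, hx⟩
    have h2 : q.out * x * q.out⁻¹ = q'.out * x * q'.out⁻¹ := congrArg Subtype.val h1
    have h3 : x * (q.out⁻¹ * q'.out) = q.out⁻¹ * (q.out * x * q.out⁻¹) * q'.out := by group
    rw [h3, h2]
    group
  rw [Nat.card_fun] at this
  exact this

theorem card_bound (m f : ℕ) : ∃ Φ : ℕ, ∀ (Γ : Type) [Group Γ] [Finite Γ] (H : Subgroup Γ),
    H.Normal → Group.IsNilpotent H → H.index ≤ f →
    (∀ B : Subgroup Γ, B.Normal → B ≤ H → (∀ a ∈ B, ∀ b ∈ B, a * b = b * a) →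
      ∃ T : Subgroup Γ, T ⊓ B = ⊥ ∧
        Nat.card {c : ConjClasses Γ // (∃ x ∈ H, ConjClasses.mk x = c) ∧
          ∀ x ∈ T, ConjClasses.mk x ≠ c} ≤ m) →
    Nat.card H ≤ Φ := by
  obtain ⟨b, hbdef⟩ : ∃ b, b = (1 + m * f) ^ m := ⟨_, rfl⟩
  have hb1 : 1 ≤ b := by rw [hbdef]; exact Nat.one_le_pow _ _ (by omega)
  obtain ⟨f', hf'def⟩ : ∃ f', f' = f * b ^ b := ⟨_, rfl⟩
  refine ⟨f' * (2 * (f' * b * m) + 2 * f' * b ^ (2 * f')), ?_⟩
  intro Γ _ _ H hH hnil hf hT
  obtain ⟨B, hBmax⟩ : ∃ B : Subgroup Γ, Maximal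
      (fun B => B ∈ {B : Subgroup Γ | B.Normal ∧ B ≤ H ∧ ∀ a ∈ B, ∀ b ∈ B, a * b = b * a}) B := by
    refine Set.Finite.exists_maximal (Set.toFinite _) ⟨⊥, inferInstance, bot_le, ?_⟩
    intro a ha b hb
    rw [Subgroup.mem_bot] at ha hb
    rw [ha, hb]
  obtain ⟨hBn, hBH, hBab⟩ := hBmax.1
  have hmax : ∀ B' : Subgroup Γ, B'.Normal → B' ≤ H → (∀ a ∈ B', ∀ b ∈ B', a * b = b * a) →
      B ≤ B' → B' ≤ B := fun B' h1 h2 h3 h4 => hBmax.2 ⟨h1, h2, h3⟩ h4
  obtain ⟨T, hTB, hTm⟩ := hT B hBn hBH hBab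
  -- the bound for B
  have hcount : ∀ S : Set Γ, S ⊆ H → (∀ x ∈ S, ∀ g : Γ, g * x * g⁻¹ ∉ T) → ncl S ≤ m := by
    intro S hSH hS
    refine le_trans ?_ hTm
    unfold ncl
    refine Nat.card_mono (t := {c : ConjClasses Γ | (∃ x ∈ H, ConjClasses.mk x = c) ∧
          ∀ x ∈ T, ConjClasses.mk x ≠ c}) (Set.toFinite _) ?_
    rintro _ ⟨x, hx, rfl⟩
    refine ⟨⟨x, hSH hx, rfl⟩, ?_⟩
    intro t ht htx
    have := htx.symm
    rw [ConjClasses.mk_eq_mk_iff_isConj, isConj_iff] at this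
    obtain ⟨g, hg⟩ := this
    exact hS x hx g (hg ▸ ht)
  have hBb : Nat.card B ≤ b := by
    have := card_B H hH hnil m f hf B hBn hBH m le_rfl ⊥ inferInstance bot_le (by
      refine hcount _ (fun x hx => hBH hx.1) ?_
      intro x hx g hgx
      have h1 : g * x * g⁻¹ ∈ T ⊓ B := ⟨hgx, hBn.conj_mem x hx.1 g⟩
      rw [hTB, Subgroup.mem_bot] at h1
      apply hx.2
      have : x = 1 := by
        have e : x = g⁻¹ * (g * x * g⁻¹) * g := by group
        rw [e, h1]; group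
      rw [this]
      exact Subgroup.one_mem _)
    rw [hbdef]
    simpa using this
  -- C
  obtain ⟨C, hCdef⟩ : ∃ C, C = H ⊓ Subgroup.centralizer (B : Set Γ) := ⟨_, rfl⟩
  have memC : ∀ x, x ∈ C ↔ x ∈ H ∧ ∀ β ∈ B, β * x = x * β := by
    intro x
    rw [hCdef, Subgroup.mem_inf, Subgroup.mem_centralizer_iff]
    rfl
  have hCn : C.Normal := by
    constructor
    intro x hx g
    rw [memC] at hx ⊢
    refine ⟨hH.conj_mem x hx.1 g, fun β hβ => ?_⟩
    have h1 := hx.2 (g⁻¹ * β * g) (by simpa using hBn.conj_mem β hβ g⁻¹)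
    calc β * (g * x * g⁻¹) = g * ((g⁻¹ * β * g) * x) * g⁻¹ := by group
      _ = g * (x * (g⁻¹ * β * g)) * g⁻¹ := by rw [h1]
      _ = g * x * g⁻¹ * β := by group
  have hCH : C ≤ H := fun x hx => ((memC x).mp hx).1
  have hBC : B ≤ C := fun x hx => (memC x).mpr ⟨hBH hx, fun β hβ => hBab β hβ x hx⟩
  have hcomm : ∀ x ∈ C, ∀ β ∈ B, β * x = x * β := fun x hx => ((memC x).mp hx).2
  have hCindex : C.index ≤ f' := by
    rw [hCdef, hf'def]
    refine (Subgroup.index_inf_le).trans (Nat.mul_le_mul hf ?_)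
    refine (centralizer_index_le B hBn).trans ?_
    calc Nat.card B ^ Nat.card B ≤ b ^ Nat.card B := Nat.pow_le_pow_left hBb _
      _ ≤ b ^ b := Nat.pow_le_pow_right hb1 hBb
  -- the centre of C is B
  have hZC : ∀ x ∈ C, (∀ c ∈ C, c * x = x * c) → x ∈ B := by
    have hZ := hmax (upK C ⊥ C inferInstance) (upK_normal C ⊥ C hCn hCn inferInstance)
      (fun x hx => hCH hx.1) (by
        intro a ha a' ha'
        have := ha'.2 a ha.1
        rw [Subgroup.mem_bot] at this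
        have e : a * a' = (a * a' * a⁻¹ * a'⁻¹) * (a' * a) := by group
        rw [e, this, one_mul]) (by
        intro x hx
        refine ⟨hBC hx, fun c hc => ?_⟩
        rw [Subgroup.mem_bot, ← hcomm c hc x hx]
        group)
    intro x hx hx'
    apply hZ
    refine ⟨hx, fun c hc => ?_⟩
    rw [Subgroup.mem_bot, hx' c hc]
    group
  -- D and E
  obtain ⟨D, hD⟩ : ∃ D, D = upK C B C hBn := ⟨_, rfl⟩
  have hDn : D.Normal := hD ▸ upK_normal C B C hCn hCn hBn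
  have memD : ∀ x, x ∈ D ↔ x ∈ C ∧ ∀ c ∈ C, c * x * c⁻¹ * x⁻¹ ∈ B := by
    intro x; rw [hD]; rfl
  obtain ⟨E, hE⟩ : ∃ E, E = upK D ⊥ C inferInstance := ⟨_, rfl⟩
  have hEn : E.Normal := hE ▸ upK_normal D ⊥ C hDn hCn inferInstance
  have memE : ∀ x, x ∈ E ↔ x ∈ C ∧ ∀ d ∈ D, d * x = x * d := by
    intro x
    rw [hE, mem_upK]
    refine and_congr_right fun _ => forall₂_congr fun d _ => ?_
    rw [Subgroup.mem_bot]
    constructor
    · intro h
      have e : d * x = (d * x * d⁻¹ * x⁻¹) * (x * d) := by group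
      rw [e, h, one_mul]
    · intro h
      rw [h]; group
  have hED : E ⊓ D ≤ B := by
    refine hmax (E ⊓ D) ?_ (fun x hx => hCH ((memE x).mp hx.1).1) ?_ ?_
    · constructor
      intro x hx g
      exact ⟨hEn.conj_mem x hx.1 g, hDn.conj_mem x hx.2 g⟩
    · intro a ha a' ha'
      exact ((memE a').mp ha'.1).2 a ha.2
    · intro x hx
      refine ⟨(memE x).mpr ⟨hBC hx, fun d hd => ?_⟩, (memD x).mpr ⟨hBC hx, fun c hc => ?_⟩⟩
      · exact (hcomm d ((memD d).mp hd).1 x hx).symm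
      · rw [← hcomm c hc x hx]
        have : x * c * c⁻¹ * x⁻¹ = 1 := by group
        rw [this]
        exact B.one_mem
  have hEB : E ≤ B := by
    by_contra hcon
    obtain ⟨x, hxE, hxB, hx⟩ := nilp_step H hnil B E hEn (fun x hx => hCH ((memE x).mp hx).1) hcon
    exact hxB (hED ⟨hxE, (memD x).mpr ⟨((memE x).mp hxE).1, fun c hc => hx c (hCH hc)⟩⟩)
  have hCC : ∀ x ∈ C, ∀ y ∈ C, x * y * x⁻¹ * y⁻¹ ∈ B := by
    intro x hx y hy
    apply hEB
    have hxy : x * y * x⁻¹ * y⁻¹ ∈ C := C.mul_mem (C.mul_mem (C.mul_mem hx hy) (C.inv_mem hx)) (C.inv_mem hy)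
    rw [memE]
    refine ⟨hxy, fun d hd => ?_⟩
    obtain ⟨hdC, hd⟩ := (memD d).mp hd
    -- β, γ
    obtain ⟨β, hβ⟩ : ∃ β, β = d * x * d⁻¹ * x⁻¹ := ⟨_, rfl⟩
    obtain ⟨γ, hγ⟩ : ∃ γ, γ = d * y * d⁻¹ * y⁻¹ := ⟨_, rfl⟩
    have hβB : β ∈ B := by
      have := B.inv_mem (hd x hx)
      have e : (x * d * x⁻¹ * d⁻¹)⁻¹ = β := by rw [hβ]; group
      rwa [e] at this
    have hγB : γ ∈ B := by
      have := B.inv_mem (hd y hy)
      have e : (y * d * y⁻¹ * d⁻¹)⁻¹ = γ := by rw [hγ]; group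
      rwa [e] at this
    have e1 : d * x * d⁻¹ = β * x := by rw [hβ]; group
    have e2 : d * y * d⁻¹ = γ * y := by rw [hγ]; group
    have c1 := hcomm x hx γ hγB
    have c2 := hcomm y hy β hβB
    have c3 := hcomm _ hxy (β * γ) (B.mul_mem hβB hγB)
    have c4 := hBab β hβB γ hγB
    have c5 : β⁻¹ * y⁻¹ = y⁻¹ * β⁻¹ := by
      rw [← mul_inv_rev, ← mul_inv_rev, c2]
    have key : d * (x * y * x⁻¹ * y⁻¹) * d⁻¹ = x * y * x⁻¹ * y⁻¹ := by
      calc d * (x * y * x⁻¹ * y⁻¹) * d⁻¹ = (d * x * d⁻¹) * (d * y * d⁻¹) * (d * x * d⁻¹)⁻¹ * (d * y * d⁻¹)⁻¹ := by group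
        _ = (β * x) * (γ * y) * (β * x)⁻¹ * (γ * y)⁻¹ := by rw [e1, e2]
        _ = β * (x * γ) * y * x⁻¹ * (β⁻¹ * y⁻¹) * γ⁻¹ := by group
        _ = β * (γ * x) * y * x⁻¹ * (y⁻¹ * β⁻¹) * γ⁻¹ := by rw [c1, c5]
        _ = (β * γ) * (x * y * x⁻¹ * y⁻¹) * (γ * β)⁻¹ := by group
        _ = (x * y * x⁻¹ * y⁻¹) * (β * γ) * (γ * β)⁻¹ := by rw [c3]
        _ = x * y * x⁻¹ * y⁻¹ := by rw [c4]; group
    calc d * (x * y * x⁻¹ * y⁻¹) = (d * (x * y * x⁻¹ * y⁻¹) * d⁻¹) * d := by group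
      _ = x * y * x⁻¹ * y⁻¹ * d := by rw [key]
  -- A
  obtain ⟨A, hA⟩ : ∃ A, A = (T ⊓ C) ⊔ B := ⟨_, rfl⟩
  have memA : ∀ x, x ∈ A ↔ ∃ t, (t ∈ T ∧ t ∈ C) ∧ ∃ β ∈ B, t * β = x := by
    intro x
    rw [hA, Subgroup.mem_sup_of_normal_right]
    rfl
  have hAC : A ≤ C := by
    rw [hA]
    exact sup_le inf_le_right hBC
  have hBA : B ≤ A := by rw [hA]; exact le_sup_right
  have hTab : ∀ s, s ∈ T → s ∈ C → ∀ t, t ∈ T → t ∈ C → s * t = t * s := by
    intro s hs hsC t ht htC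
    have h1 : s * t * s⁻¹ * t⁻¹ ∈ T ⊓ B :=
      ⟨T.mul_mem (T.mul_mem (T.mul_mem hs ht) (T.inv_mem hs)) (T.inv_mem ht), hCC s hsC t htC⟩
    rw [hTB, Subgroup.mem_bot] at h1
    have e : s * t = (s * t * s⁻¹ * t⁻¹) * (t * s) := by group
    rw [e, h1, one_mul]
  have hAab : ∀ a ∈ A, ∀ a' ∈ A, a * a' = a' * a := by
    intro a ha a' ha'
    obtain ⟨t, ⟨htT, htC⟩, β, hβ, rfl⟩ := (memA a).mp ha
    obtain ⟨t', ⟨htT', htC'⟩, β', hβ', rfl⟩ := (memA a').mp ha'
    have h1 := hTab t htT htC t' htT' htC'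
    have h2 := hcomm t' htC' β hβ
    have h3 := hcomm t htC β' hβ'
    have h4 := hBab β hβ β' hβ'
    calc t * β * (t' * β') = t * (β * t') * β' := by group
      _ = t * (t' * β) * β' := by rw [h2]
      _ = (t * t') * (β * β') := by group
      _ = (t' * t) * (β' * β) := by rw [h1, h4]
      _ = t' * (t * β') * β := by group
      _ = t' * (β' * t) * β := by rw [h3]
      _ = t' * β' * (t * β) := by group
  -- counting
  obtain ⟨U, hU⟩ : ∃ U : Set Γ, U = {x | x ∈ C ∧ ∃ g : Γ, ∃ a ∈ (A : Set Γ), x = g * a * g⁻¹} := ⟨_, rfl⟩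
  have hUcard : Nat.card U ≤ f' * Nat.card A := by
    refine (card_union_conj_le C (A : Set Γ) U ?_ ?_).trans (Nat.mul_le_mul_right _ hCindex)
    · intro c hc a ha
      have e : c * a * c⁻¹ = (c * a * c⁻¹ * a⁻¹) * a := by group
      rw [e]
      exact A.mul_mem (hBA (hCC c hc a (hAC ha))) ha
    · intro u hu
      rw [hU] at hu
      exact hu.2
  have hVcard : Nat.card ((C : Set Γ) \ U : Set Γ) ≤ f' * b * m := by
    have h1 : Nat.card ((C : Set Γ) \ U : Set Γ) ≤ (f' * b) * ncl ((C : Set Γ) \ U) := by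
      refine card_le_ncl _ _ ?_
      intro x hx
      refine (card_class_le C B x (fun c hc => hCC c hc x hx.1) hBn).trans (Nat.mul_le_mul hCindex hBb)
    refine h1.trans (Nat.mul_le_mul_left _ ?_)
    refine hcount _ (fun x hx => hCH hx.1) ?_
    intro x hx g hgx
    apply hx.2
    rw [hU]
    refine ⟨hx.1, g⁻¹, g * x * g⁻¹, ?_, by group⟩
    exact (memA _).mpr ⟨g * x * g⁻¹, ⟨hgx, hCn.conj_mem x hx.1 g⟩, 1, B.one_mem, mul_one _⟩
  have hCcard : Nat.card C ≤ f' * Nat.card A + f' * b * m := by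
    have hUC : U ⊆ (C : Set Γ) := by
      rw [hU]; exact fun x hx => hx.1
    have := Set.ncard_sdiff_add_ncard_of_subset (s := U) (t := (C : Set Γ)) hUC (Set.toFinite _)
    have e1 : Nat.card C = (C : Set Γ).ncard := rfl
    have e2 : Nat.card U = (U : Set Γ).ncard := rfl
    have e3 : Nat.card ((C : Set Γ) \ U : Set Γ) = ((C : Set Γ) \ U).ncard := rfl
    omega
  have hCfin : Nat.card C ≤ 2 * (f' * b * m) + 2 * f' * b ^ (2 * f') := by
    by_cases hcase : 2 * f' * Nat.card A ≤ Nat.card C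
    · have h1 : 2 * f' * Nat.card A = 2 * (f' * Nat.card A) := by ring
      have : Nat.card C ≤ 2 * (f' * b * m) := by omega
      exact this.trans (Nat.le_add_right _ _)
    · push Not at hcase
      obtain ⟨A', hA'⟩ : ∃ A', A' = A.subgroupOf C := ⟨_, rfl⟩
      have hA'card : Nat.card A' = Nat.card A := by
        rw [hA']
        exact Nat.card_congr (Subgroup.subgroupOfEquivOfLe hAC).toEquiv
      have hj : Nat.card C = Nat.card (C ⧸ A') * Nat.card A := by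
        rw [← hA'card]
        exact Subgroup.card_eq_card_quotient_mul_card_subgroup A'
      have hApos : 0 < Nat.card A := Nat.card_pos
      have hjlt : Nat.card (C ⧸ A') < 2 * f' := by
        rw [hj] at hcase
        exact Nat.lt_of_mul_lt_mul_right hcase
      have hAle : Nat.card A ≤ Nat.card B * Nat.card B ^ (Nat.card (C ⧸ A')) := by
        rw [← Nat.card_fun]
        have hmem : ∀ (a : A) (q : C ⧸ A'), (q.out : Γ) * a.1 * (q.out : Γ)⁻¹ * a.1⁻¹ ∈ B :=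
          fun a q => hCC _ q.out.2 _ (hAC a.2)
        refine card_le_of_fibers (fun a : A => fun q : C ⧸ A' => (⟨(q.out : Γ) * a.1 * (q.out : Γ)⁻¹ * a.1⁻¹, hmem a q⟩ : B)) _ ?_
        intro φ
        by_cases hne : Nonempty {a : A // (fun q : C ⧸ A' => (⟨(q.out : Γ) * a.1 * (q.out : Γ)⁻¹ * a.1⁻¹, hmem a q⟩ : B)) = φ}
        · obtain ⟨a', ha'⟩ := hne
          have hz : ∀ a : {a : A // (fun q : C ⧸ A' => (⟨(q.out : Γ) * a.1 * (q.out : Γ)⁻¹ * a.1⁻¹, hmem a q⟩ : B)) = φ},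
              a'.1⁻¹ * a.1.1 ∈ B := by
            rintro ⟨a, ha⟩
            have hzA : a'.1⁻¹ * a.1 ∈ A := A.mul_mem (A.inv_mem a'.2) a.2
            apply hZC _ (hAC hzA)
            intro c hc
            obtain ⟨q, hq⟩ : ∃ q : C ⧸ A', q = QuotientGroup.mk ⟨c, hc⟩ := ⟨_, rfl⟩
            have hq' : q.out⁻¹ * ⟨c, hc⟩ ∈ A' := by
              rw [← QuotientGroup.eq, ← hq]
              exact Quotient.out_eq' _
            have hq2 : (q.out : Γ)⁻¹ * c ∈ A := by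
              have hmemA' : ∀ z : C, z ∈ A' → (z : Γ) ∈ A := by
                intro z hz
                rw [hA', Subgroup.mem_subgroupOf] at hz
                exact hz
              exact hmemA' _ hq'
            have hqz : (q.out : Γ) * (a'.1⁻¹ * a.1) = (a'.1⁻¹ * a.1) * (q.out : Γ) := by
              have h1 : (q.out : Γ) * a.1 * (q.out : Γ)⁻¹ * a.1⁻¹ = (q.out : Γ) * a'.1 * (q.out : Γ)⁻¹ * a'.1⁻¹ := by
                have := congrFun (ha.trans ha'.symm) q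
                exact congrArg Subtype.val this
              have h2 : (q.out : Γ) * a.1 * (q.out : Γ)⁻¹ = ((q.out : Γ) * a'.1 * (q.out : Γ)⁻¹) * (a'.1⁻¹ * a.1) := by
                calc (q.out : Γ) * a.1 * (q.out : Γ)⁻¹ = ((q.out : Γ) * a.1 * (q.out : Γ)⁻¹ * a.1⁻¹) * a.1 := by group
                  _ = ((q.out : Γ) * a'.1 * (q.out : Γ)⁻¹ * a'.1⁻¹) * a.1 := by rw [h1]
                  _ = _ := by group
              calc (q.out : Γ) * (a'.1⁻¹ * a.1) = ((q.out : Γ) * a'.1 * (q.out : Γ)⁻¹)⁻¹ * ((q.out : Γ) * a.1 * (q.out : Γ)⁻¹) * (q.out : Γ) := by group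
                _ = ((q.out : Γ) * a'.1 * (q.out : Γ)⁻¹)⁻¹ * (((q.out : Γ) * a'.1 * (q.out : Γ)⁻¹) * (a'.1⁻¹ * a.1)) * (q.out : Γ) := by rw [h2]
                _ = _ := by group
            have h3 := hAab _ hq2 _ hzA
            calc c * (a'.1⁻¹ * a.1) = (q.out : Γ) * (((q.out : Γ)⁻¹ * c) * (a'.1⁻¹ * a.1)) := by group
              _ = (q.out : Γ) * ((a'.1⁻¹ * a.1) * ((q.out : Γ)⁻¹ * c)) := by rw [h3]
              _ = ((q.out : Γ) * (a'.1⁻¹ * a.1)) * ((q.out : Γ)⁻¹ * c) := by group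
              _ = ((a'.1⁻¹ * a.1) * (q.out : Γ)) * ((q.out : Γ)⁻¹ * c) := by rw [hqz]
              _ = _ := by group
          refine Nat.card_le_card_of_injective (fun a => (⟨a'.1⁻¹ * a.1.1, hz a⟩ : B)) ?_
          intro a a'' haa
          have : a'.1⁻¹ * a.1.1 = a'.1⁻¹ * a''.1.1 := congrArg Subtype.val haa
          exact Subtype.ext (Subtype.ext (mul_left_cancel this))
        · rw [not_nonempty_iff] at hne
          rw [Nat.card_of_isEmpty]
          exact Nat.zero_le _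
      have h5 : Nat.card A ≤ b ^ (2 * f') := by
        calc Nat.card A ≤ Nat.card B * Nat.card B ^ (Nat.card (C ⧸ A')) := hAle
          _ ≤ b * b ^ (Nat.card (C ⧸ A')) := Nat.mul_le_mul hBb (Nat.pow_le_pow_left hBb _)
          _ = b ^ (Nat.card (C ⧸ A') + 1) := by ring
          _ ≤ b ^ (2 * f') := Nat.pow_le_pow_right hb1 hjlt
      calc Nat.card C ≤ 2 * f' * Nat.card A := hcase.le
        _ ≤ 2 * f' * b ^ (2 * f') := Nat.mul_le_mul_left _ h5
        _ ≤ _ := Nat.le_add_left _ _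
  calc Nat.card H ≤ Nat.card Γ := Nat.card_le_card_of_injective _ H.subtype_injective
    _ = C.index * Nat.card C := (C.index_mul_card).symm
    _ ≤ f' * (2 * (f' * b * m) + 2 * f' * b ^ (2 * f')) := Nat.mul_le_mul hCindex hCfin

end Pool.Agent.Helper721_Z
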