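import Mathlib
import Pool.Agent.Helper721_Z.Ser
import Pool.Agent.Helper721_Z.G

/-!
# The index of the Fitting subgroup
-/

set_option autoImplicit false
open CategoryTheory
open scoped commutatorElement

namespace Pool.Agent.Helper721_Z

variable {G : Type} [Group G]

namespace CSer

/-- the number of jumps is bounded -/
theorem card_jumps [Finite G] (hG : Group.IsSolvable G) {m : ℕ} (hm : ZB m G) {P : Subgroup G}
    (s : CSer G P) (J : Finset ℕ) (hJ : ∀ i ∈ J, i < s.k ∧ s.D i ≠ s.D (i + 1)) :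
    J.card ≤ (m + 1) ^ 2 := by
  classical
  have key : ∀ i ∈ J, ∃ V : FDRep ℂ G, ∃ x : G, x ∈ s.D (i + 1) ∧ x ∉ s.D i ∧ Simple V ∧
      (∀ n ∈ s.N i, V.ρ n = 1) ∧ V.character x = 0 ∧
      (∀ x, Good (s.N i) (s.N (i + 1)) x → V.character x = 0) := by
    intro i hi
    obtain ⟨h1, h2⟩ := hJ i hi
    have hlt : s.D i < s.D (i + 1) := lt_of_le_of_ne (s.D_mono (Nat.le_succ i)) h2
    obtain ⟨B, hB, hDB, hBD, hab⟩ := exists_abelian_between hG (s.D_normal i)
      (s.D_normal (i + 1)) hlt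
    obtain ⟨l, hl, hreg, V, hV, hV1, hV2, hV3⟩ := s.jump hG h1 B hB hBD hab
    obtain ⟨x, hx, hx'⟩ := SetLike.exists_of_lt hDB
    refine ⟨V, x, hBD hx, hx', hV, hV1, hV2 x ?_, hV3⟩
    intro g
    by_contra hcon
    push Not at hcon
    have h3 := hreg _ (hB.conj_mem x hx g) hcon
    apply hx'
    have h4 := (s.D_normal i).conj_mem _ h3 g⁻¹
    have : g⁻¹ * (g * x * g⁻¹) * g⁻¹⁻¹ = x := by group
    rwa [this] at h4
  have : Nonempty (FDRep ℂ G) := ⟨FDRep.of (1 : Representation ℂ G ℂ)⟩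
  choose! V x h1 h2 h3 h4 h5 h6 using key
  refine chain_bound' hm s.k s.N s.nor (fun i j hij hj => s.mono hij hj) J
    (fun i hi => (hJ i hi).1) V h3 h4 h6 x h5 ?_
  intro i hi j hj hji hconj
  apply h2 i hi
  obtain ⟨c, hc⟩ := isConj_iff.1 hconj
  rw [← hc]
  apply (s.D_normal i).conj_mem
  exact s.D_mono hji (h1 j hj)

/-- nilpotency of `D (i+1) / D i` for a series of the whole group -/
theorem lcs_D (s : CSer G (⊤ : Subgroup G)) (i t : ℕ) (hik : i + t ≤ s.k) :
    (s.D i).lowerCentralSeries t ≤ s.N (s.k - t) := by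
  induction t with
  | zero =>
    rw [Nat.sub_zero, s.top]
    exact le_top
  | succ t ih =>
    have h1 := ih (by omega)
    rw [Subgroup.lowerCentralSeries_succ, Subgroup.commutator_le]
    intro g hg h hh
    have h2 := hh (s.k - (t + 1)) (by omega) (by omega) g (by
      have : s.k - (t + 1) + 1 = s.k - t := by omega
      rw [this]; exact h1 hg)
    rw [← commutatorElement_inv]
    exact (s.N _).inv_mem h2

theorem D_zero_nilpotent (s : CSer G (⊤ : Subgroup G)) : Group.IsNilpotent (s.D 0) := by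
  apply Subgroup.isNilpotent_of_lowerCentralSeries_eq_bot (n := s.k)
  have h1 := s.lcs_D 0 s.k (by omega)
  rw [Nat.sub_self, s.bot] at h1
  exact le_bot_iff.1 h1

/-- the inertia subgroup -/
def inert (W : Subgroup G) (hW : W.Normal) (l : G → ℂ) : Subgroup G where
  carrier := {g | ∀ w ∈ W, l (g * w * g⁻¹) = l w}
  mul_mem' := by
    intro g h hg hh w hw
    have e1 : g * h * w * (g * h)⁻¹ = g * (h * w * h⁻¹) * g⁻¹ := by group
    rw [e1, hg _ (hW.conj_mem w hw h), hh w hw]
  one_mem' := by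
    intro w _
    rw [one_mul, inv_one, mul_one]
  inv_mem' := by
    intro g hg w hw
    have h1 := hg _ (hW.conj_mem w hw g⁻¹)
    have e1 : g * (g⁻¹ * w * g⁻¹⁻¹) * g⁻¹ = w := by group
    rw [e1] at h1
    exact h1.symm

theorem mem_inert_iff {W N : Subgroup G} (hW : W.Normal) {l : G → ℂ} (hl : IsLin W N l) (g : G) :
    g ∈ inert W hW l ↔ ∀ w ∈ W, l ⁅g, w⁆ = 1 := by
  constructor
  · intro hg w hw
    rw [commutatorElement_def, hl.mul _ (hW.conj_mem w hw g) _ (W.inv_mem hw), hg w hw]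
    exact hl.mul_inv hw
  · intro hg w hw
    have h1 := hg w hw
    rw [commutatorElement_def, hl.mul _ (hW.conj_mem w hw g) _ (W.inv_mem hw)] at h1
    have h2 := hl.mul_inv hw
    have h3 : l w⁻¹ ≠ 0 := hl.ne_zero (W.inv_mem hw)
    have h4 : (l (g * w * g⁻¹) - l w) * l w⁻¹ = 0 := by linear_combination h1 - h2
    rcases mul_eq_zero.1 h4 with h | h
    · linear_combination h
    · exact absurd h h3

end CSer

/-- the bound of `card_bound` -/
theorem exists_Phi : ∃ Φ : ℕ → ℕ → ℕ, ∀ m f : ℕ, ∀ (Γ : Type) [Group Γ] [Finite Γ] (H : Subgroup Γ),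
    H.Normal → Group.IsNilpotent H → H.index ≤ f →
    (∀ B : Subgroup Γ, B.Normal → B ≤ H → (∀ a ∈ B, ∀ b ∈ B, a * b = b * a) →
      ∃ T : Subgroup Γ, T ⊓ B = ⊥ ∧
        Nat.card {c : ConjClasses Γ // (∃ x ∈ H, ConjClasses.mk x = c) ∧
          ∀ x ∈ T, ConjClasses.mk x ≠ c} ≤ m) →
    Nat.card H ≤ Φ m f := by
  choose Φ hΦ using card_bound
  exact ⟨Φ, hΦ⟩

/-- the bound at one jump -/
theorem CSer.card_step [Finite G] (hG : Group.IsSolvable G) {m : ℕ} (hm : ZB m G)
    (s : CSer G (⊤ : Subgroup G)) {i : ℕ} (hi : i < s.k) (Φ : ℕ → ℕ → ℕ)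
    (hΦ : ∀ m f : ℕ, ∀ (Γ : Type) [Group Γ] [Finite Γ] (H : Subgroup Γ),
      H.Normal → Group.IsNilpotent H → H.index ≤ f →
      (∀ B : Subgroup Γ, B.Normal → B ≤ H → (∀ a ∈ B, ∀ b ∈ B, a * b = b * a) →
        ∃ T : Subgroup Γ, T ⊓ B = ⊥ ∧
          Nat.card {c : ConjClasses Γ // (∃ x ∈ H, ConjClasses.mk x = c) ∧
            ∀ x ∈ T, ConjClasses.mk x ≠ c} ≤ m) →
      Nat.card H ≤ Φ m f) (f : ℕ) (hf : (s.D (i + 1)).index ≤ f) :
    (s.D i).index ≤ f * Φ m f := by
  classical
  have hnor := s.D_normal i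
  let π := QuotientGroup.mk' (s.D i)
  have hπs : Function.Surjective π := QuotientGroup.mk'_surjective _
  let H : Subgroup (G ⧸ s.D i) := (s.D (i + 1)).map π
  have hker : π.ker = s.D i := QuotientGroup.ker_mk' _
  have hle : s.D i ≤ s.D (i + 1) := s.D_mono (Nat.le_succ i)
  have hcomap : H.comap π = s.D (i + 1) := by
    rw [Subgroup.comap_map_eq, hker]
    exact sup_eq_left.2 hle
  have hHn : H.Normal := (s.D_normal (i + 1)).map π hπs
  have hab' := chief_abelian hG (s.nor i) (s.nor (i + 1)) (s.lt i hi) (s.chief i hi)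
  have hHnil : Group.IsNilpotent H := by
    apply Subgroup.isNilpotent_of_lowerCentralSeries_eq_bot (n := s.k - (i + 1))
    change ((s.D (i + 1)).map π).lowerCentralSeries _ = ⊥
    rw [← Subgroup.map_lowerCentralSeries, Subgroup.map_eq_bot_iff, hker]
    intro x hx
    have h1 := s.lcs_D (i + 1) (s.k - (i + 1)) (by omega) hx
    have h2 : s.k - (s.k - (i + 1)) = i + 1 := by omega
    rw [h2] at h1
    have h3 : x ∈ s.D (i + 1) := Subgroup.lowerCentralSeries_le_self _ _ hx
    exact s.mem_D_of h3 (fun w hw => hab' x h1 w hw)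
  have hHidx : H.index ≤ f := by
    rw [← hcomap, Subgroup.index_comap_of_surjective _ hπs] at hf
    exact hf
  have hcard : Nat.card H ≤ Φ m f := by
    apply hΦ m f (G ⧸ s.D i) H hHn hHnil hHidx
    intro B' hB' hB'H hB'ab
    let B : Subgroup G := B'.comap π
    have hB : B.Normal := hB'.comap π
    have hBD : B ≤ s.D (i + 1) := by
      rw [← hcomap]
      exact Subgroup.comap_mono hB'H
    have hBab : ∀ u ∈ B, ∀ v ∈ B, ⁅u, v⁆ ∈ s.D i := by
      intro u hu v hv
      rw [← hker, MonoidHom.mem_ker, map_commutatorElement, commutatorElement_eq_one_iff_mul_comm]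
      exact hB'ab _ hu _ hv
    obtain ⟨l, hl, hreg, V, hV, hV1, hV2, hV3⟩ := s.jump hG hi B hB hBD hBab
    let T : Subgroup G := inert (s.N (i + 1)) (s.nor (i + 1)) l
    refine ⟨T.map π, ?_, ?_⟩
    · rw [eq_bot_iff]
      rintro _ ⟨⟨t, ht, rfl⟩, hx⟩
      have h1 : t ∈ B := hx
      have h2 := hreg t h1 ((mem_inert_iff _ hl t).1 ht)
      rw [Subgroup.mem_bot, ← MonoidHom.mem_ker, hker]
      exact h2
    · refine le_trans ?_ (hm V hV)
      -- each class lifts to a zero
      have hz : ∀ c : {c : ConjClasses (G ⧸ s.D i) // (∃ x ∈ H, ConjClasses.mk x = c) ∧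
          ∀ x ∈ T.map π, ConjClasses.mk x ≠ c}, ∃ y : G, ConjClasses.mk (π y) = c.1 ∧
          V.character y = 0 := by
        rintro ⟨c, ⟨x, hx, hxc⟩, hcT⟩
        obtain ⟨y, rfl⟩ := hπs x
        refine ⟨y, hxc, hV2 y ?_⟩
        intro g
        by_contra hcon
        push Not at hcon
        have h1 : g * y * g⁻¹ ∈ T := (mem_inert_iff _ hl _).2 hcon
        apply hcT (π (g * y * g⁻¹)) ⟨_, h1, rfl⟩
        rw [← hxc, ConjClasses.mk_eq_mk_iff_isConj, isConj_comm, isConj_iff]
        exact ⟨π g, by rw [map_mul, map_mul, map_inv]⟩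
      choose y hy1 hy2 using hz
      let φ : {c : ConjClasses (G ⧸ s.D i) // (∃ x ∈ H, ConjClasses.mk x = c) ∧
          ∀ x ∈ T.map π, ConjClasses.mk x ≠ c} →
          {c : ConjClasses G // ∃ g : G, ConjClasses.mk g = c ∧ V.character g = 0} :=
        fun c => ⟨ConjClasses.mk (y c), y c, rfl, hy2 c⟩
      apply Nat.card_le_card_of_injective φ
      intro c c' hcc
      have h1 : ConjClasses.mk (y c) = ConjClasses.mk (y c') := congrArg Subtype.val hcc
      rw [ConjClasses.mk_eq_mk_iff_isConj, isConj_iff] at h1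
      obtain ⟨g, hg⟩ := h1
      apply Subtype.ext
      rw [← hy1 c, ← hy1 c', ConjClasses.mk_eq_mk_iff_isConj, isConj_iff]
      exact ⟨π g, by rw [← hg, map_mul, map_mul, map_inv]⟩
  have h1 : (s.D i).index = Nat.card H * H.index := by
    rw [Subgroup.card_mul_index]
    rfl
  rw [h1, mul_comm]
  exact Nat.mul_le_mul hHidx hcard

/-- Theorem A -/
theorem fitting_index : ∃ F : ℕ → ℕ, ∀ (m : ℕ) (G : Type) [Group G] [Finite G],
    Group.IsSolvable G → ZB m G → ∃ N : Subgroup G, N.Normal ∧ Group.IsNilpotent N ∧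
      N.index ≤ F m := by
  classical
  obtain ⟨Φ, hΦ⟩ := exists_Phi
  let g : ℕ → ℕ → ℕ := fun m => Nat.rec 1 (fun _ b => b * (Φ m b + 1))
  have hg0 : ∀ m, g m 0 = 1 := fun _ => rfl
  have hgs : ∀ m t, g m (t + 1) = g m t * (Φ m (g m t) + 1) := fun _ _ => rfl
  have hgmono : ∀ m, Monotone (g m) := fun m => monotone_nat_of_le_succ (fun t => by
    rw [hgs]; exact Nat.le_mul_of_pos_right _ (by omega))
  refine ⟨fun m => g m ((m + 1) ^ 2), ?_⟩
  intro m G _ _ hG hm
  obtain ⟨s⟩ := exists_cser (⊤ : Subgroup G) inferInstance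
  refine ⟨s.D 0, s.D_normal 0, s.D_zero_nilpotent, ?_⟩
  let J : ℕ → Finset ℕ := fun i => (Finset.range s.k).filter (fun j => i ≤ j ∧ s.D j ≠ s.D (j + 1))
  have key : ∀ t, t ≤ s.k → (s.D (s.k - t)).index ≤ g m (J (s.k - t)).card := by
    intro t
    induction t with
    | zero =>
      intro _
      rw [Nat.sub_zero, s.D_top le_rfl, Subgroup.index_top]
      have := hgmono m (Nat.zero_le (J s.k).card)
      rwa [hg0] at this
    | succ t ih =>
      intro ht
      have h1 := ih (by omega)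
      have hi : s.k - t = s.k - (t + 1) + 1 := by omega
      rw [hi] at h1
      set i := s.k - (t + 1) with hi'
      by_cases he : s.D i = s.D (i + 1)
      · rw [he]
        refine le_trans h1 (hgmono m (Finset.card_le_card ?_))
        intro j hj
        simp only [J, Finset.mem_filter, Finset.mem_range] at hj ⊢
        exact ⟨hj.1, by omega, hj.2.2⟩
      · have h2 := s.card_step hG hm (by omega : i < s.k) Φ hΦ _ h1
        have h3 : (J (i + 1)).card + 1 ≤ (J i).card := by
          have h4 : insert i (J (i + 1)) ⊆ J i := by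
            intro j hj
            rw [Finset.mem_insert] at hj
            simp only [J, Finset.mem_filter, Finset.mem_range] at hj ⊢
            rcases hj with rfl | hj
            · exact ⟨by omega, le_refl _, he⟩
            · exact ⟨hj.1, by omega, hj.2.2⟩
          have h5 := Finset.card_le_card h4
          rwa [Finset.card_insert_of_notMem] at h5
          simp only [J, Finset.mem_filter, Finset.mem_range]
          omega
        refine le_trans h2 ?_
        refine le_trans ?_ (hgmono m h3)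
        rw [hgs]
        exact Nat.mul_le_mul_left _ (by omega)
  have h1 := key s.k le_rfl
  rw [Nat.sub_self] at h1
  have h2 : (J 0).card ≤ (m + 1) ^ 2 := by
    apply s.card_jumps hG hm
    intro i hi
    simp only [J, Finset.mem_filter, Finset.mem_range] at hi
    exact ⟨hi.1, hi.2.2⟩
  have h3 : g m (J 0).card ≤ g m ((m + 1) ^ 2) := (hgmono m) h2
  exact le_trans h1 h3

end Pool.Agent.Helper721_Z
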