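import Mathlib
import Pool.Agent.Helper721_Z.Idx

/-!
# The index of the Fitting subgroup of an arbitrary finite group, given the index of a solvable
normal subgroup
-/

set_option autoImplicit false
open CategoryTheory
open scoped commutatorElement

namespace Pool.Agent.Helper721_Z

variable {G : Type} [Group G]

/-- Chief factors below a solvable subgroup are abelian. -/
theorem chief_abelian' {P : Subgroup G} (hP : Group.IsSolvable P) {N W : Subgroup G}
    (hN : N.Normal) (hW : W.Normal) (hNW : N < W) (hWP : W ≤ P)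
    (hc : ∀ M : Subgroup G, M.Normal → N ≤ M → M ≤ W → M = N ∨ M = W) :
    ∀ u ∈ W, ∀ v ∈ W, ⁅u, v⁆ ∈ N := by
  let f := QuotientGroup.mk' N
  have h1 : W.map f ≠ ⊥ := by
    intro h
    rw [Subgroup.map_eq_bot_iff, QuotientGroup.ker_mk'] at h
    exact absurd (lt_of_lt_of_le hNW h) (lt_irrefl _)
  have hWs : Group.IsSolvable W :=
    Group.isSolvable_of_isSolvable_injective (Subgroup.inclusion_injective hWP)
  have hWf : Group.IsSolvable (W.map f) :=
    Group.isSolvable_of_surjective (f := f.subgroupMap W) (f.subgroupMap_surjective W)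
  have hnt : Nontrivial (W.map f) := (Subgroup.nontrivial_iff_ne_bot _).2 h1
  have h2' := Group.IsSolvable.commutator_lt_top_of_nontrivial (G := W.map f)
  have h2 : ⁅W.map f, W.map f⁆ ≠ W.map f := by
    intro h
    apply h2'.ne
    apply Subgroup.map_injective (W.map f).subtype_injective
    rw [commutator_def, Subgroup.map_commutator, ← MonoidHom.range_eq_map, Subgroup.range_subtype]
    exact h
  have h3 : (⁅W, W⁆ ⊔ N) = N := by
    have hn : (⁅W, W⁆ ⊔ N).Normal := inferInstance
    rcases hc _ hn le_sup_right (sup_le (Subgroup.commutator_le_left W W) hNW.le) with h | h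
    · exact h
    · exfalso
      have h4 : ⁅W.map f, W.map f⁆ = W.map f := by
        rw [← Subgroup.map_commutator]
        have h5 := congrArg (fun X => Subgroup.map f X) h
        simp only [Subgroup.map_sup] at h5
        rw [← h5]
        have h6 : Subgroup.map f N = ⊥ := by
          rw [Subgroup.map_eq_bot_iff, QuotientGroup.ker_mk']
        rw [h6, sup_bot_eq]
      exact h2 h4
  intro u hu v hv
  rw [← h3]
  exact (le_sup_left : ⁅W, W⁆ ≤ ⁅W, W⁆ ⊔ N) (Subgroup.commutator_mem_commutator hu hv)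

/-- Between normal subgroups `D < D'` with `D'` solvable there is a normal `B > D` with `B/D`
abelian. -/
theorem exists_abelian_between' [Finite G] {P : Subgroup G} (hP : Group.IsSolvable P)
    {D D' : Subgroup G} (hD : D.Normal)
    (hD' : D'.Normal) (h : D < D') (hDP : D' ≤ P) :
    ∃ B : Subgroup G, B.Normal ∧ D < B ∧ B ≤ D' ∧ ∀ u ∈ B, ∀ v ∈ B, ⁅u, v⁆ ∈ D := by
  obtain ⟨B, ⟨hB1, hB2, hB3⟩, hmin⟩ := WellFounded.has_min (α := Subgroup G) (r := (· < ·))
    wellFounded_lt {B | B.Normal ∧ D < B ∧ B ≤ D'} ⟨D', hD', h, le_refl _⟩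
  refine ⟨B, hB1, hB2, hB3, chief_abelian' hP hD hB1 hB2 (hB3.trans hDP) ?_⟩
  intro M hM h1 h2
  by_contra hc
  push Not at hc
  exact hmin M ⟨hM, lt_of_le_of_ne h1 (Ne.symm hc.1), le_trans h2 hB3⟩ (lt_of_le_of_ne h2 hc.2)

namespace CSer
variable {P : Subgroup G} (s : CSer G P)

/-- centralisers inside `P` -/
def E (i : ℕ) : Subgroup G := P ⊓ s.D i

theorem E_normal (hPn : P.Normal) (i : ℕ) : (s.E i).Normal :=
  have := s.D_normal i
  Subgroup.normal_inf_normal P (s.D i)

theorem E_mono {i j : ℕ} (h : i ≤ j) : s.E i ≤ s.E j := inf_le_inf_left _ (s.D_mono h)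

theorem E_top {i : ℕ} (h : s.k ≤ i) : s.E i = P := by
  rw [E, s.D_top h, inf_top_eq]

theorem jump' [Finite G] (hP : Group.IsSolvable P) {i : ℕ} (hi : i < s.k) (B : Subgroup G)
    (hB : B.Normal) (hB2 : B ≤ s.E (i + 1)) (hab : ∀ u ∈ B, ∀ v ∈ B, ⁅u, v⁆ ∈ s.E i) :
    ∃ l : G → ℂ, IsLin (s.N (i + 1)) (s.N i) l ∧
      (∀ b ∈ B, (∀ w ∈ s.N (i + 1), l ⁅b, w⁆ = 1) → b ∈ s.E i) ∧
      ∃ V : FDRep ℂ G, Simple V ∧ (∀ n ∈ s.N i, V.ρ n = 1) ∧
        (∀ x, (∀ g, ∃ w ∈ s.N (i + 1), l ⁅g * x * g⁻¹, w⁆ ≠ 1) → V.character x = 0) ∧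
        (∀ x, Good (s.N i) (s.N (i + 1)) x → V.character x = 0) := by
  have hle : s.N (i + 1) ≤ P := by
    have h1 := s.mono (i := i + 1) (j := s.k) (by omega) le_rfl
    rwa [s.top] at h1
  have hab' := chief_abelian' hP (s.nor i) (s.nor (i + 1)) (s.lt i hi) hle (s.chief i hi)
  obtain ⟨l, hl, hlne, hreg⟩ := exists_regular (s.N i) (s.N (i + 1)) B (s.nor i) (s.nor (i + 1))
    hB (s.lt i hi).le (s.lt i hi).ne hab' (s.chief i hi)
    (fun a ha b hb w hw => (hab a ha b hb).2 i (le_refl _) hi w hw)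
  obtain ⟨V, hV, h1, h2, h3, -⟩ := exists_rep (s.N i) (s.N (i + 1)) (s.nor (i + 1)) l (s.nor i)
    (s.lt i hi).le hl hlne
  exact ⟨l, hl, fun b hb hfix => ⟨(hB2 hb).1, s.mem_D_of (hB2 hb).2 (hreg b hb hfix)⟩,
    V, hV, h1, h2, h3⟩

/-- the number of jumps is bounded -/
theorem card_jumps' [Finite G] (hP : Group.IsSolvable P) (hPn : P.Normal) {m : ℕ} (hm : ZB m G)
    (J : Finset ℕ) (hJ : ∀ i ∈ J, i < s.k ∧ s.E i ≠ s.E (i + 1)) :
    J.card ≤ (m + 1) ^ 2 := by
  classical
  have key : ∀ i ∈ J, ∃ V : FDRep ℂ G, ∃ x : G, x ∈ s.E (i + 1) ∧ x ∉ s.E i ∧ Simple V ∧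
      (∀ n ∈ s.N i, V.ρ n = 1) ∧ V.character x = 0 ∧
      (∀ x, Good (s.N i) (s.N (i + 1)) x → V.character x = 0) := by
    intro i hi
    obtain ⟨h1, h2⟩ := hJ i hi
    have hlt : s.E i < s.E (i + 1) := lt_of_le_of_ne (s.E_mono (Nat.le_succ i)) h2
    obtain ⟨B, hB, hDB, hBD, hab⟩ := exists_abelian_between' hP (s.E_normal hPn i)
      (s.E_normal hPn (i + 1)) hlt inf_le_left
    obtain ⟨l, hl, hreg, V, hV, hV1, hV2, hV3⟩ := s.jump' hP h1 B hB hBD hab
    obtain ⟨x, hx, hx'⟩ := SetLike.exists_of_lt hDB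
    refine ⟨V, x, hBD hx, hx', hV, hV1, hV2 x ?_, hV3⟩
    intro g
    by_contra hcon
    push Not at hcon
    have h3 := hreg _ (hB.conj_mem x hx g) hcon
    apply hx'
    have h4 := (s.E_normal hPn i).conj_mem _ h3 g⁻¹
    have : g⁻¹ * (g * x * g⁻¹) * g⁻¹⁻¹ = x := by group
    rwa [this] at h4
  have : Nonempty (FDRep ℂ G) := ⟨FDRep.of (1 : Representation ℂ G ℂ)⟩
  choose! V x h1 h2 h3 h4 h5 h6 using key
  refine chain_bound' hm s.k s.N s.nor (fun i j hij hj => s.mono hij hj) J
    (fun i hi => (hJ i hi).1) V h3 h4 h6 x h5 ?_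
  intro i hi j hj hji hconj
  apply h2 i hi
  obtain ⟨c, hc⟩ := isConj_iff.1 hconj
  rw [← hc]
  apply (s.E_normal hPn i).conj_mem
  exact s.E_mono hji (h1 j hj)

/-- nilpotency of `E (i+1) / E i` -/
theorem lcs_E (i t : ℕ) (hik : i + t ≤ s.k) :
    (s.E i).lowerCentralSeries t ≤ s.N (s.k - t) := by
  induction t with
  | zero =>
    rw [Nat.sub_zero, s.top]
    exact le_trans (Subgroup.lowerCentralSeries_le_self _ _) inf_le_left
  | succ t ih =>
    have h1 := ih (by omega)
    rw [Subgroup.lowerCentralSeries_succ, Subgroup.commutator_le]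
    intro g hg h hh
    have h2 := hh.2 (s.k - (t + 1)) (by omega) (by omega) g (by
      have : s.k - (t + 1) + 1 = s.k - t := by omega
      rw [this]; exact h1 hg)
    rw [← commutatorElement_inv]
    exact (s.N _).inv_mem h2

theorem E_zero_nilpotent : Group.IsNilpotent (s.E 0) := by
  apply Subgroup.isNilpotent_of_lowerCentralSeries_eq_bot (n := s.k)
  have h1 := s.lcs_E 0 s.k (by omega)
  rw [Nat.sub_self, s.bot] at h1
  exact le_bot_iff.1 h1

/-- the bound at one jump -/
theorem card_step' [Finite G] (hP : Group.IsSolvable P) (hPn : P.Normal) {m : ℕ} (hm : ZB m G)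
    {i : ℕ} (hi : i < s.k) (Φ : ℕ → ℕ → ℕ)
    (hΦ : ∀ m f : ℕ, ∀ (Γ : Type) [Group Γ] [Finite Γ] (H : Subgroup Γ),
      H.Normal → Group.IsNilpotent H → H.index ≤ f →
      (∀ B : Subgroup Γ, B.Normal → B ≤ H → (∀ a ∈ B, ∀ b ∈ B, a * b = b * a) →
        ∃ T : Subgroup Γ, T ⊓ B = ⊥ ∧
          Nat.card {c : ConjClasses Γ // (∃ x ∈ H, ConjClasses.mk x = c) ∧
            ∀ x ∈ T, ConjClasses.mk x ≠ c} ≤ m) →
      Nat.card H ≤ Φ m f) (f : ℕ) (hf : (s.E (i + 1)).index ≤ f) :
    (s.E i).index ≤ f * Φ m f := by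
  classical
  have hnor := s.E_normal hPn i
  let π := QuotientGroup.mk' (s.E i)
  have hπs : Function.Surjective π := QuotientGroup.mk'_surjective _
  let H : Subgroup (G ⧸ s.E i) := (s.E (i + 1)).map π
  have hker : π.ker = s.E i := QuotientGroup.ker_mk' _
  have hle : s.E i ≤ s.E (i + 1) := s.E_mono (Nat.le_succ i)
  have hcomap : H.comap π = s.E (i + 1) := by
    rw [Subgroup.comap_map_eq, hker]
    exact sup_eq_left.2 hle
  have hHn : H.Normal := (s.E_normal hPn (i + 1)).map π hπs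
  have hNP : s.N (i + 1) ≤ P := by
    have h1 := s.mono (i := i + 1) (j := s.k) (by omega) le_rfl
    rwa [s.top] at h1
  have hab' := chief_abelian' hP (s.nor i) (s.nor (i + 1)) (s.lt i hi) hNP (s.chief i hi)
  have hHnil : Group.IsNilpotent H := by
    apply Subgroup.isNilpotent_of_lowerCentralSeries_eq_bot (n := s.k - (i + 1))
    change ((s.E (i + 1)).map π).lowerCentralSeries _ = ⊥
    rw [← Subgroup.map_lowerCentralSeries, Subgroup.map_eq_bot_iff, hker]
    intro x hx
    have h1 := s.lcs_E (i + 1) (s.k - (i + 1)) (by omega) hx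
    have h2 : s.k - (s.k - (i + 1)) = i + 1 := by omega
    rw [h2] at h1
    have h3 : x ∈ s.E (i + 1) := Subgroup.lowerCentralSeries_le_self _ _ hx
    exact ⟨h3.1, s.mem_D_of h3.2 (fun w hw => hab' x h1 w hw)⟩
  have hHidx : H.index ≤ f := by
    rw [← hcomap, Subgroup.index_comap_of_surjective _ hπs] at hf
    exact hf
  have hcard : Nat.card H ≤ Φ m f := by
    apply hΦ m f (G ⧸ s.E i) H hHn hHnil hHidx
    intro B' hB' hB'H hB'ab
    let B : Subgroup G := B'.comap π
    have hB : B.Normal := hB'.comap π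
    have hBD : B ≤ s.E (i + 1) := by
      rw [← hcomap]
      exact Subgroup.comap_mono hB'H
    have hBab : ∀ u ∈ B, ∀ v ∈ B, ⁅u, v⁆ ∈ s.E i := by
      intro u hu v hv
      rw [← hker, MonoidHom.mem_ker, map_commutatorElement, commutatorElement_eq_one_iff_mul_comm]
      exact hB'ab _ hu _ hv
    obtain ⟨l, hl, hreg, V, hV, hV1, hV2, hV3⟩ := s.jump' hP hi B hB hBD hBab
    let T : Subgroup G := inert (s.N (i + 1)) (s.nor (i + 1)) l
    refine ⟨T.map π, ?_, ?_⟩
    · rw [eq_bot_iff]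
      rintro _ ⟨⟨t, ht, rfl⟩, hx⟩
      have h1 : t ∈ B := hx
      have h2 := hreg t h1 ((mem_inert_iff _ hl t).1 ht)
      rw [Subgroup.mem_bot, ← MonoidHom.mem_ker, hker]
      exact h2
    · refine le_trans ?_ (hm V hV)
      -- each class lifts to a zero
      have hz : ∀ c : {c : ConjClasses (G ⧸ s.E i) // (∃ x ∈ H, ConjClasses.mk x = c) ∧
          ∀ x ∈ T.map π, ConjClasses.mk x ≠ c}, ∃ y : G, ConjClasses.mk (π y) = c.1 ∧
          V.character y = 0 := by
        rintro ⟨c, ⟨x, hx, hxc⟩, hcT⟩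
        obtain ⟨y, rfl⟩ := hπs x
        refine ⟨y, hxc, hV2 y ?_⟩
        intro g
        by_contra hcon
        push Not at hcon
        have h1 : g * y * g⁻¹ ∈ T := (mem_inert_iff _ hl _).2 hcon
        apply hcT (π (g * y * g⁻¹)) ⟨_, h1, rfl⟩
        rw [← hxc, ConjClasses.mk_eq_mk_iff_isConj, isConj_comm, isConj_iff]
        exact ⟨π g, by rw [map_mul, map_mul, map_inv]⟩
      choose y hy1 hy2 using hz
      let φ : {c : ConjClasses (G ⧸ s.E i) // (∃ x ∈ H, ConjClasses.mk x = c) ∧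
          ∀ x ∈ T.map π, ConjClasses.mk x ≠ c} →
          {c : ConjClasses G // ∃ g : G, ConjClasses.mk g = c ∧ V.character g = 0} :=
        fun c => ⟨ConjClasses.mk (y c), y c, rfl, hy2 c⟩
      apply Nat.card_le_card_of_injective φ
      intro c c' hcc
      have h1 : ConjClasses.mk (y c) = ConjClasses.mk (y c') := congrArg Subtype.val hcc
      rw [ConjClasses.mk_eq_mk_iff_isConj, isConj_iff] at h1
      obtain ⟨g, hg⟩ := h1
      apply Subtype.ext
      rw [← hy1 c, ← hy1 c', ConjClasses.mk_eq_mk_iff_isConj, isConj_iff]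
      exact ⟨π g, by rw [← hg, map_mul, map_mul, map_inv]⟩
  have h1 : (s.E i).index = Nat.card H * H.index := by
    rw [Subgroup.card_mul_index]
    rfl
  rw [h1, mul_comm]
  exact Nat.mul_le_mul hHidx hcard

end CSer

/-- Theorem A for arbitrary finite groups: the index of the Fitting subgroup is bounded in terms of
the number of zeros in the rows of the character table and the index of a solvable normal
subgroup. -/
theorem fitting_index' : ∃ F : ℕ → ℕ → ℕ, ∀ (m : ℕ) (G : Type) [Group G] [Finite G]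
    (P : Subgroup G), P.Normal → Group.IsSolvable P → ZB m G →
      ∃ N : Subgroup G, N.Normal ∧ Group.IsNilpotent N ∧ N ≤ P ∧ N.index ≤ F m P.index := by
  classical
  obtain ⟨Φ, hΦ⟩ := exists_Phi
  let g : ℕ → ℕ → ℕ → ℕ := fun m a => Nat.rec a (fun _ b => b * (Φ m b + 1))
  have hg0 : ∀ m a, g m a 0 = a := fun _ _ => rfl
  have hgs : ∀ m a t, g m a (t + 1) = g m a t * (Φ m (g m a t) + 1) := fun _ _ _ => rfl
  have hgmono : ∀ m a, Monotone (g m a) := fun m a => monotone_nat_of_le_succ (fun t => by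
    rw [hgs]; exact Nat.le_mul_of_pos_right _ (by omega))
  refine ⟨fun m a => g m a ((m + 1) ^ 2), ?_⟩
  intro m G _ _ P hPn hP hm
  obtain ⟨s⟩ := exists_cser P hPn
  refine ⟨s.E 0, s.E_normal hPn 0, s.E_zero_nilpotent, inf_le_left, ?_⟩
  let J : ℕ → Finset ℕ := fun i => (Finset.range s.k).filter (fun j => i ≤ j ∧ s.E j ≠ s.E (j + 1))
  have key : ∀ t, t ≤ s.k → (s.E (s.k - t)).index ≤ g m P.index (J (s.k - t)).card := by
    intro t
    induction t with
    | zero =>
      intro _
      rw [Nat.sub_zero, s.E_top le_rfl]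
      have := hgmono m P.index (Nat.zero_le (J s.k).card)
      rwa [hg0] at this
    | succ t ih =>
      intro ht
      have h1 := ih (by omega)
      have hi : s.k - t = s.k - (t + 1) + 1 := by omega
      rw [hi] at h1
      set i := s.k - (t + 1) with hi'
      by_cases he : s.E i = s.E (i + 1)
      · rw [he]
        refine le_trans h1 (hgmono m P.index (Finset.card_le_card ?_))
        intro j hj
        simp only [J, Finset.mem_filter, Finset.mem_range] at hj ⊢
        exact ⟨hj.1, by omega, hj.2.2⟩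
      · have h2 := s.card_step' hP hPn hm (by omega : i < s.k) Φ hΦ _ h1
        have h3 : (J (i + 1)).card + 1 ≤ (J i).card := by
          have h4 : insert i (J (i + 1)) ⊆ J i := by
            intro j hj
            rw [Finset.mem_insert] at hj
            simp only [J, Finset.mem_filter, Finset.mem_range] at hj ⊢
            rcases hj with rfl | hj
            · exact ⟨by omega, le_refl _, he⟩
            · exact ⟨hj.1, by omega, hj.2.2⟩
          have h5 := Finset.card_le_card h4
          rwa [Finset.card_insert_of_notMem] at h5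
          simp only [J, Finset.mem_filter, Finset.mem_range]
          omega
        refine le_trans h2 ?_
        refine le_trans ?_ (hgmono m P.index h3)
        rw [hgs]
        exact Nat.mul_le_mul_left _ (by omega)
  have h1 := key s.k le_rfl
  rw [Nat.sub_self] at h1
  have h2 : (J 0).card ≤ (m + 1) ^ 2 := by
    apply s.card_jumps' hP hPn hm
    intro i hi
    simp only [J, Finset.mem_filter, Finset.mem_range] at hi
    exact ⟨hi.1, hi.2.2⟩
  exact le_trans h1 (hgmono m P.index h2)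

end Pool.Agent.Helper721_Z
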